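import Mathlib

/-!
Chains of normal subgroups with non-torsion factors in groups of finite special rank.
-/

namespace OrdRank

open Subgroup
open scoped commutatorElement

/-- `G` has special (Mal'cev) rank at most `r`: every finitely generated subgroup is generated by
at most `r` elements. -/
def SpecialRankLE (G : Type*) [Group G] (r : ℕ) : Prop :=
  ∀ H : Subgroup G, H.FG → ∃ S : Finset G, S.card ≤ r ∧ Subgroup.closure (S : Set G) = H

/-- `P` has `m` pairs of subgroups `A j ≤ B j` (indexed by `j ∈ J`, `J` a set of `m` natural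
numbers), with `A j` normal in `B j`, `B i ≤ A j` for `i < j`, and `B j / A j` not torsion. -/
def HasChain (P : Type*) [Group P] (m : ℕ) : Prop :=
  ∃ (A B : ℕ → Subgroup P) (J : Finset ℕ), J.card = m ∧
    (∀ i ∈ J, ∀ j ∈ J, i < j → B i ≤ A j) ∧
    ∀ j ∈ J, A j ≤ B j ∧ (∀ b ∈ B j, ∀ a ∈ A j, b * a * b⁻¹ ∈ A j) ∧
      ∃ v ∈ B j, ∀ n : ℕ, 0 < n → v ^ n ∉ A j

theorem SpecialRankLE.subgroup {P : Type*} [Group P] {r : ℕ} (h : SpecialRankLE P r)
    (N : Subgroup P) : SpecialRankLE N r := by
  classical
  intro H hH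
  have hfg : (H.map N.subtype).FG := by
    obtain ⟨T, hT⟩ := hH
    refine ⟨T.image N.subtype, ?_⟩
    rw [Finset.coe_image, ← MonoidHom.map_closure, hT]
  obtain ⟨S, hS, hcl⟩ := h _ hfg
  have hSN : ∀ s ∈ S, s ∈ N := by
    intro s hs
    have : s ∈ Subgroup.closure (S : Set P) := Subgroup.subset_closure hs
    rw [hcl] at this
    obtain ⟨y, -, rfl⟩ := this
    exact y.2
  refine ⟨S.preimage N.subtype (Set.injOn_of_injective N.subtype_injective), ?_, ?_⟩
  · exact (Finset.card_le_card_of_injOn N.subtype (by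
      intro x hx
      exact Finset.mem_preimage.1 hx) (Set.injOn_of_injective N.subtype_injective)).trans hS
  · apply Subgroup.map_injective N.subtype_injective
    rw [MonoidHom.map_closure, ← hcl]
    congr 1
    ext x
    simp only [Finset.coe_preimage, Set.mem_image, Set.mem_preimage, Finset.mem_coe]
    constructor
    · rintro ⟨y, hy, rfl⟩
      exact hy
    · intro hx
      exact ⟨⟨x, hSN x hx⟩, hx, rfl⟩

theorem SpecialRankLE.of_surjective {P Q : Type*} [Group P] [Group Q] {r : ℕ}
    (h : SpecialRankLE P r) (f : P →* Q) (hf : Function.Surjective f) : SpecialRankLE Q r := by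
  classical
  intro H hH
  obtain ⟨T, hT⟩ := hH
  choose g hg using hf
  have hfg : (Subgroup.closure ((T.image g : Finset P) : Set P)).FG := ⟨_, rfl⟩
  obtain ⟨S, hS, hcl⟩ := h _ hfg
  refine ⟨S.image f, Finset.card_image_le.trans hS, ?_⟩
  rw [Finset.coe_image, ← MonoidHom.map_closure, hcl, MonoidHom.map_closure, ← hT]
  congr 1
  ext x
  simp only [Finset.coe_image, Set.mem_image, Finset.mem_coe, exists_exists_and_eq_and, hg,
    exists_eq_right]

theorem mul_pow_mul_inv_mem {P : Type*} [Group P] (K : Subgroup P) {w u : P} (hw : w ∈ K)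
    (hu : ∀ a ∈ K, u * a * u⁻¹ ∈ K) (n : ℕ) : (w * u) ^ n * (u ^ n)⁻¹ ∈ K := by
  have hun : ∀ n : ℕ, ∀ a ∈ K, u ^ n * a * (u ^ n)⁻¹ ∈ K := by
    intro n
    induction n with
    | zero => intro a ha; simpa using ha
    | succ n ih =>
      intro a ha
      have := hu _ (ih a ha)
      have e : u ^ (n + 1) * a * (u ^ (n + 1))⁻¹ = u * (u ^ n * a * (u ^ n)⁻¹) * u⁻¹ := by
        rw [pow_succ']; group
      rw [e]
      exact this
  induction n with
  | zero => simpa using K.one_mem
  | succ n ih =>
    have e : (w * u) ^ (n + 1) * (u ^ (n + 1))⁻¹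
        = ((w * u) ^ n * (u ^ n)⁻¹) * (u ^ n * w * (u ^ n)⁻¹) := by
      rw [pow_succ, pow_succ]; group
    rw [e]
    exact K.mul_mem ih (hun n w hw)

/-- Splitting a chain along a normal subgroup. -/
theorem HasChain.split {P : Type*} [Group P] {m : ℕ} (h : HasChain P m) (N : Subgroup P)
    [N.Normal] : ∃ a b : ℕ, a + b = m ∧ HasChain N a ∧ HasChain (P ⧸ N) b := by
  classical
  obtain ⟨A, B, J, hJ, hV, hv⟩ := h
  set T : ℕ → Prop := fun j => ∃ u ∈ B j, u ∈ N ∧ ∀ n : ℕ, 0 < n → u ^ n ∉ A j with hT
  refine ⟨(J.filter T).card, (J.filter fun j => ¬ T j).card, ?_, ?_, ?_⟩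
  · rw [Finset.card_filter_add_card_filter_not, hJ]
  · refine ⟨fun j => (A j).comap N.subtype, fun j => (B j).comap N.subtype, J.filter T, rfl,
      fun i hi j hj hij => Subgroup.comap_mono
        (hV i (Finset.mem_filter.1 hi).1 j (Finset.mem_filter.1 hj).1 hij), ?_⟩
    intro j hj
    obtain ⟨hjJ, u, hu, huN, hun⟩ := Finset.mem_filter.1 hj
    obtain ⟨hAB, hnorm, -⟩ := hv j hjJ
    refine ⟨Subgroup.comap_mono hAB, ?_, ⟨⟨u, huN⟩, hu, fun n hn hmem => hun n hn hmem⟩⟩
    intro b hb a ha
    exact hnorm _ hb _ ha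
  · refine ⟨fun j => (A j).map (QuotientGroup.mk' N), fun j => (B j).map (QuotientGroup.mk' N),
      J.filter fun j => ¬ T j, rfl,
      fun i hi j hj hij => Subgroup.map_mono
        (hV i (Finset.mem_filter.1 hi).1 j (Finset.mem_filter.1 hj).1 hij), ?_⟩
    intro j hj
    obtain ⟨hjJ, hjT⟩ := Finset.mem_filter.1 hj
    obtain ⟨hAB, hnorm, v, hvV, hvn⟩ := hv j hjJ
    refine ⟨Subgroup.map_mono hAB, ?_, QuotientGroup.mk' N v, Subgroup.mem_map_of_mem _ hvV, ?_⟩
    · rintro _ ⟨b, hb, rfl⟩ _ ⟨a, ha, rfl⟩
      exact ⟨b * a * b⁻¹, hnorm b hb a ha, by simp⟩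
    rintro n hn ⟨w, hw, hwv⟩
    have hw' : w ∈ A j := hw
    have hu : w⁻¹ * v ^ n ∈ N := by
      have : QuotientGroup.mk' N w = QuotientGroup.mk' N (v ^ n) := by rw [hwv, map_pow]
      exact QuotientGroup.eq.1 this
    have hu2 : w⁻¹ * v ^ n ∈ B j :=
      (B j).mul_mem ((B j).inv_mem (hAB hw')) ((B j).pow_mem hvV n)
    have : ∃ n' : ℕ, 0 < n' ∧ (w⁻¹ * v ^ n) ^ n' ∈ A j := by
      by_contra hcon
      push Not at hcon
      exact hjT ⟨_, hu2, hu, hcon⟩
    obtain ⟨n', hn', hmem⟩ := this
    apply hvn (n * n') (Nat.mul_pos hn hn')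
    have h3 := mul_pow_mul_inv_mem (A j) hw' (hnorm _ hu2) n'
    have h4 := (A j).mul_mem h3 hmem
    have e : (w * (w⁻¹ * v ^ n)) ^ n' * ((w⁻¹ * v ^ n) ^ n')⁻¹ * (w⁻¹ * v ^ n) ^ n'
        = v ^ (n * n') := by
      rw [inv_mul_cancel_right, mul_inv_cancel_left, pow_mul]
    rw [e] at h4
    exact h4

/-- In a commutative group of special rank `≤ r` chains have length `≤ r`. -/
theorem HasChain.le_of_comm {P : Type*} [CommGroup P] {r m : ℕ} (hr : SpecialRankLE P r)
    (h : HasChain P m) : m ≤ r := by
  classical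
  obtain ⟨A, B, J, hJ, hV, hv⟩ := h
  choose! hAB hnorm v hvV hvn using hv
  let w : J → Additive P := fun j => Additive.ofMul (v j)
  have hw : LinearIndependent ℤ w := by
    rw [Fintype.linearIndependent_iff]
    intro g hg
    by_contra hcon
    push Not at hcon
    set T : Finset J := Finset.univ.filter fun i => g i ≠ 0 with hT
    have hTne : T.Nonempty := by
      obtain ⟨i, hi⟩ := hcon
      exact ⟨i, by simp [hT, hi]⟩
    obtain ⟨j, hjT, hjmax⟩ := T.exists_max_image (fun i => (i : ℕ)) hTne
    have hgj : g j ≠ 0 := (Finset.mem_filter.1 hjT).2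
    have hsum : g j • w j = - ∑ i ∈ Finset.univ.erase j, g i • w i := by
      rw [← Finset.add_sum_erase _ _ (Finset.mem_univ j)] at hg
      exact eq_neg_of_add_eq_zero_left hg
    have hmem : ∀ i ∈ Finset.univ.erase j, Additive.toMul (g i • w i) ∈ A j := by
      intro i hi
      by_cases hgi : g i = 0
      · simp [hgi, (A j).one_mem]
      · have hi1 : (i : ℕ) ≤ j := hjmax i (by simp [hT, hgi])
        have hi2 : (i : ℕ) ≠ j := by
          intro h
          exact (Finset.mem_erase.1 hi).1 (Subtype.ext h)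
        have hi3 : (i : ℕ) < j := by omega
        have : v i ∈ A j := hV i i.2 j j.2 hi3 (hvV i i.2)
        have h2 : Additive.toMul (g i • w i) = v i ^ (g i) := by
          simp [w]
        rw [h2]
        exact (A j).zpow_mem this _
    have hmem2 : Additive.toMul (g j • w j) ∈ A j := by
      rw [hsum, toMul_neg, toMul_sum]
      apply (A j).inv_mem
      exact (A j).prod_mem hmem
    have h3 : Additive.toMul (g j • w j) = v j ^ (g j) := by simp [w]
    rw [h3] at hmem2
    have h4 : v j ^ (g j).natAbs ∈ A j := by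
      rcases Int.natAbs_eq (g j) with h | h
      · rw [h, zpow_natCast] at hmem2
        simpa using hmem2
      · rw [h, zpow_neg, zpow_natCast] at hmem2
        have := (A j).inv_mem hmem2
        simpa using this
    exact hvn j j.2 _ (Int.natAbs_pos.2 hgj) h4
  -- the subgroup generated by the `v j`
  obtain ⟨S, hS, hcl⟩ := hr (Subgroup.closure ((J.image v : Finset P) : Set P)) ⟨_, rfl⟩
  have hspan : Set.range w ≤
      (Submodule.span ℤ ((S.image Additive.ofMul : Finset (Additive P)) : Set (Additive P)) :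
        Set (Additive P)) := by
    rintro _ ⟨j, rfl⟩
    have h1 : v j ∈ Subgroup.closure (S : Set P) := by
      rw [hcl]
      exact Subgroup.subset_closure (by simp only [Finset.coe_image]; exact ⟨j, j.2, rfl⟩)
    have h2 : ∀ x ∈ Subgroup.closure (S : Set P), Additive.ofMul x ∈
        Submodule.span ℤ ((S.image Additive.ofMul : Finset (Additive P)) : Set (Additive P)) := by
      intro x hx
      induction hx using Subgroup.closure_induction with
      | mem x hx =>
        apply Submodule.subset_span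
        simp only [Finset.coe_image]
        exact ⟨x, hx, rfl⟩
      | one => exact Submodule.zero_mem _
      | mul x y _ _ hx hy => exact Submodule.add_mem _ hx hy
      | inv x _ hx => exact Submodule.neg_mem _ hx
    exact h2 _ h1
  have hcard := linearIndependent_le_span' w hw _ hspan
  rw [Cardinal.mk_fintype, Nat.cast_le, Fintype.card_coe, hJ] at hcard
  refine hcard.trans ?_
  simp only [Finset.coe_sort_coe, Fintype.card_coe]
  exact Finset.card_image_le.trans hS

theorem HasChain.le_of_comm' {P : Type*} [Group P] (hc : ∀ a b : P, a * b = b * a) {r m : ℕ}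
    (hr : SpecialRankLE P r) (h : HasChain P m) : m ≤ r := by
  let _ : CommGroup P := { ‹Group P› with mul_comm := hc }
  exact HasChain.le_of_comm hr h

theorem HasChain.zero_of_subsingleton {P : Type*} [Group P] [Subsingleton P] {m : ℕ}
    (h : HasChain P m) : m = 0 := by
  obtain ⟨A, B, J, hJ, hV, hv⟩ := h
  rw [← hJ, Finset.card_eq_zero]
  by_contra hne
  obtain ⟨j, hj⟩ := Finset.nonempty_iff_ne_empty.2 hne
  obtain ⟨-, -, v, -, hv⟩ := hv j hj
  apply hv 1 one_pos
  rw [Subsingleton.elim (v ^ 1) 1]
  exact (A j).one_mem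

theorem map_derivedSeries_commutator (P : Type*) [Group P] (n : ℕ) :
    (derivedSeries (commutator P) n).map (commutator P).subtype = derivedSeries P (n + 1) := by
  induction n with
  | zero =>
    rw [derivedSeries_zero, ← MonoidHom.range_eq_map, Subgroup.range_subtype, derivedSeries_one]
  | succ n ih =>
    rw [derivedSeries_succ, Subgroup.map_commutator, ih, ← derivedSeries_succ]

/-- Chains in a soluble group of derived length `≤ n` and special rank `≤ r` have length at most
`n * r`. -/
theorem HasChain.le_of_derivedSeries {r : ℕ} (n : ℕ) : ∀ (P : Type*) [Group P],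
    SpecialRankLE P r → derivedSeries P n = ⊥ → ∀ m : ℕ, HasChain P m → m ≤ n * r := by
  induction n with
  | zero =>
    intro P _ hr hd m hm
    rw [derivedSeries_zero] at hd
    have : Subsingleton P := by
      refine ⟨fun a b => ?_⟩
      have ha : a ∈ (⊤ : Subgroup P) := trivial
      have hb : b ∈ (⊤ : Subgroup P) := trivial
      rw [hd, Subgroup.mem_bot] at ha hb
      rw [ha, hb]
    rw [hm.zero_of_subsingleton]
    exact Nat.zero_le _
  | succ n ih =>
    intro P _ hr hd m hm
    obtain ⟨a, b, hab, ha, hb⟩ := hm.split (commutator P)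
    have h1 : a ≤ n * r := by
      refine ih (commutator P) (hr.subgroup _) ?_ a ha
      apply Subgroup.map_injective (commutator P).subtype_injective
      rw [map_derivedSeries_commutator, hd, Subgroup.map_bot]
    have h2 : b ≤ r := by
      refine HasChain.le_of_comm' ?_ (hr.of_surjective (QuotientGroup.mk' (commutator P))
        (QuotientGroup.mk'_surjective _)) hb
      intro x y
      induction x using QuotientGroup.induction_on with
      | H x =>
      induction y using QuotientGroup.induction_on with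
      | H y =>
      rw [← QuotientGroup.mk_mul, ← QuotientGroup.mk_mul, QuotientGroup.eq]
      have : (x * y)⁻¹ * (y * x) = ⁅y⁻¹, x⁻¹⁆ := by
        rw [commutatorElement_def]; group
      rw [this]
      exact Subgroup.commutator_mem_commutator (Subgroup.mem_top _) (Subgroup.mem_top _)
    rw [← hab, Nat.succ_mul]
    exact Nat.add_le_add h1 h2

end OrdRank
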