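import Pool.Agent.OrdRank.Rel

/-!
A shift `x ≪ h⁻¹ x h` produces continuum many convex subgroups.
-/

namespace OrdRank

open Subgroup
open scoped commutatorElement

variable {G : Type*} [Group G] [LinearOrder G] [MulLeftMono G] [MulRightMono G]

/-- Between `A` and `B` there is a shift. -/
def Bad (A B : Subgroup G) : Prop :=
  ∃ x h : G, InfSmaller x (h⁻¹ * x * h) ∧ A ≤ up x ∧
    ∀ n : ℕ, up ((h ^ n)⁻¹ * x * h ^ n) ≤ B

theorem Bad.lt {A B : Subgroup G} (h : Bad A B) : A < B := by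
  obtain ⟨x, g, hxg, hA, hB⟩ := h
  have h1 := hB 1
  rw [pow_one] at h1
  exact (hA.trans_lt (up_lt_of_infSmaller hxg)).trans_le h1

theorem Bad.split {r : ℕ} (hr : SpecialRankLE G r) {A B : Subgroup G} (h : Bad A B) :
    ∃ C : Subgroup G, IsConvex C ∧ Bad A C ∧ Bad C B := by
  obtain ⟨x, g, hxg, hA, hB⟩ := h
  obtain ⟨n, x', h', hxh', hxx', hx'n, hh'n⟩ := exists_smaller_shift hr hxg
  refine ⟨up ((g ^ n)⁻¹ * x * g ^ n), up_convex _, ⟨x', h', hxh', ?_, ?_⟩, ?_⟩
  · exact hA.trans (up_le (up_convex _) hxx')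
  · intro m
    refine up_le (up_convex _) ?_
    have h1 := Subgroup.pow_mem _ hh'n m
    exact mul_mem (mul_mem (inv_mem h1) hx'n) h1
  · refine ⟨(g ^ n)⁻¹ * x * g ^ n, g, ?_, le_rfl, ?_⟩
    · have h1 := infSmaller_seq hxg n
      have e : g⁻¹ * ((g ^ n)⁻¹ * x * g ^ n) * g = (g ^ (n + 1))⁻¹ * x * g ^ (n + 1) := by
        rw [pow_succ]; group
      rw [e]
      exact h1
    · intro m
      have e : (g ^ m)⁻¹ * ((g ^ n)⁻¹ * x * g ^ n) * g ^ m
          = (g ^ (n + m))⁻¹ * x * g ^ (n + m) := by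
        rw [pow_add]; group
      rw [e]
      exact hB _

/-- A union of a strictly increasing sequence of convex subgroups is convex and is not the
isolator of a finitely generated subgroup. -/
theorem iSup_convex {A : ℕ → Subgroup G} (hA : ∀ n, IsConvex (A n)) (hm : StrictMono A) :
    IsConvex (⨆ n, A n) ∧ ¬ ∃ H : Subgroup G, H.FG ∧ (⨆ n, A n) = isolator H := by
  have hdir : Directed (· ≤ ·) A := hm.monotone.directed_le
  constructor
  · intro a ha b hb g h1 h2
    rw [mem_iSup_of_directed hdir] at ha hb ⊢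
    obtain ⟨i, hi⟩ := ha
    obtain ⟨j, hj⟩ := hb
    exact ⟨max i j, hA _ a (hm.monotone (le_max_left i j) hi) b
      (hm.monotone (le_max_right i j) hj) g h1 h2⟩
  · rintro ⟨H, ⟨S, hS⟩, hC⟩
    have hHV : H ≤ ⨆ n, A n := by rw [hC]; exact le_isolator H
    have hfin : ∃ n, ∀ s ∈ S, s ∈ A n := by
      have h1 : ∀ s ∈ S, ∃ n, s ∈ A n := by
        intro s hs
        rw [← mem_iSup_of_directed hdir]
        exact hHV (hS ▸ Subgroup.subset_closure hs)
      choose! N hN using h1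
      exact ⟨S.sup N, fun s hs => hm.monotone (Finset.le_sup hs) (hN s hs)⟩
    obtain ⟨n, hn⟩ := hfin
    have h1 : H ≤ A n := by
      rw [← hS, Subgroup.closure_le]
      exact hn
    have h2 : (⨆ n, A n) ≤ A n := by
      rw [hC]
      exact isolator_le h1 (hA n).isolated
    exact not_le_of_gt (hm (Nat.lt_succ_self n)) ((le_iSup A (n + 1)).trans h2)

/-- Bad pairs of convex subgroups. -/
def BadPair (G : Type*) [Group G] [LinearOrder G] [MulLeftMono G] [MulRightMono G] : Type _ :=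
  {p : Subgroup G × Subgroup G // IsConvex p.1 ∧ Bad p.1 p.2}

theorem BadPair.exists_split {r : ℕ} (hr : SpecialRankLE G r) (p : BadPair G) :
    ∃ q q' : BadPair G, p.1.1 < q.1.1 ∧ q.1.2 ≤ p.1.2 ∧ q.1.2 < q'.1.1 ∧ p.1.1 < q'.1.1 ∧
      q'.1.2 ≤ p.1.2 := by
  obtain ⟨⟨A, B⟩, hA, hAB⟩ := p
  obtain ⟨c0, hc0, h1, h2⟩ := hAB.split hr
  obtain ⟨c1, hc1, h3, h4⟩ := h2.split hr
  obtain ⟨c2, hc2, h5, h6⟩ := h4.split hr
  exact ⟨⟨⟨c0, c1⟩, hc0, h3⟩, ⟨⟨c2, B⟩, hc2, h6⟩, h1.lt, h4.lt.le, h5.lt,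
    (h1.lt.trans h3.lt).trans h5.lt, le_rfl⟩

/-- If `x ≪ h⁻¹ x h` then there are at least continuum many convex subgroups which are not
isolators of finitely generated subgroups. -/
theorem continuum_le_of_shift {r : ℕ} (hr : SpecialRankLE G r) {x h : G}
    (hxh : InfSmaller x (h⁻¹ * x * h)) :
    Cardinal.continuum ≤ Cardinal.mk {C : Subgroup G // IsConvex C ∧
      ¬ ∃ H : Subgroup G, H.FG ∧ C = isolator H} := by
  classical
  choose L R hL1 hL2 hLR hR1 hR2 using BadPair.exists_split (G := G) hr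
  let p₀ : BadPair G := ⟨⟨up x, ⊤⟩, up_convex x, x, h, hxh, le_rfl, fun _ => le_top⟩
  let s : (ℕ → Bool) → ℕ → BadPair G := fun σ n =>
    Nat.rec p₀ (fun k p => if σ k then R p else L p) n
  have hs0 : ∀ σ, s σ 0 = p₀ := fun σ => rfl
  have hss : ∀ σ n, s σ (n + 1) = if σ n then R (s σ n) else L (s σ n) := fun σ n => rfl
  have hA : ∀ σ, StrictMono fun n => (s σ n).1.1 := by
    intro σ
    apply strictMono_nat_of_lt_succ
    intro n
    rw [hss]
    cases σ n
    · exact hL1 _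
    · exact hR1 _
  have hB : ∀ σ, Antitone fun n => (s σ n).1.2 := by
    intro σ
    apply antitone_nat_of_succ_le
    intro n
    rw [hss]
    cases σ n
    · exact hL2 _
    · exact hR2 _
  have hAB : ∀ σ m n, (s σ m).1.1 ≤ (s σ n).1.2 := by
    intro σ m n
    calc (s σ m).1.1 ≤ (s σ (max m n)).1.1 := (hA σ).monotone (le_max_left m n)
      _ ≤ (s σ (max m n)).1.2 := (s σ (max m n)).2.2.lt.le
      _ ≤ (s σ n).1.2 := hB σ (le_max_right m n)
  have hagree : ∀ σ τ : ℕ → Bool, ∀ n, (∀ k < n, σ k = τ k) → s σ n = s τ n := by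
    intro σ τ n
    induction n with
    | zero => intro _; rfl
    | succ n ih =>
      intro hk
      rw [hss, hss, ih (fun k hk' => hk k (by omega)), hk n (Nat.lt_succ_self n)]
  let C : (ℕ → Bool) → Subgroup G := fun σ => ⨆ n, (s σ n).1.1
  have hlt : ∀ σ τ : ℕ → Bool, ∀ n, (∀ k < n, σ k = τ k) → σ n = false → τ n = true →
      C σ < C τ := by
    intro σ τ n hk h1 h2
    have h3 : C σ ≤ (s σ (n + 1)).1.2 := iSup_le fun m => hAB σ m (n + 1)
    have h4 : (s τ (n + 1)).1.1 ≤ C τ := le_iSup (fun m => (s τ m).1.1) (n + 1)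
    refine (h3.trans_lt ?_).trans_le h4
    rw [hss, hss, h1, h2, hagree σ τ n hk]
    exact hLR _
  have hinj : Function.Injective C := by
    intro σ τ hC
    by_contra hne
    have hex : ∃ n, σ n ≠ τ n := Function.ne_iff.1 hne
    have h1 : ∀ k < Nat.find hex, σ k = τ k := fun k hk => by
      have := Nat.find_min hex hk
      exact not_not.1 this
    have h2 := Nat.find_spec hex
    cases hσ : σ (Nat.find hex) <;> cases hτ : τ (Nat.find hex)
    · exact h2 (hσ.trans hτ.symm)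
    · exact (hlt σ τ _ h1 hσ hτ).ne hC
    · exact (hlt τ σ _ (fun k hk => (h1 k hk).symm) hτ hσ).ne hC.symm
    · exact h2 (hσ.trans hτ.symm)
  have hprop : ∀ σ, IsConvex (C σ) ∧ ¬ ∃ H : Subgroup G, H.FG ∧ C σ = isolator H := fun σ =>
    iSup_convex (fun n => (s σ n).2.1) (hA σ)
  have hinj' : Function.Injective fun σ : ℕ → Bool => (⟨C σ, hprop σ⟩ :
      {C : Subgroup G // IsConvex C ∧ ¬ ∃ H : Subgroup G, H.FG ∧ C = isolator H}) := by
    intro σ τ h
    exact hinj (congrArg Subtype.val h)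
  have hcard := Cardinal.lift_mk_le_lift_mk_of_injective hinj'
  simpa using hcard

end OrdRank
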