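import Pool.Agent.OrdRank.Dense

/-!
The final equivalences.
-/

namespace OrdRank

universe u

variable {G : Type u} [Group G] [LinearOrder G] [MulLeftMono G] [MulRightMono G]

theorem tfae_few {r : ℕ} (hr : SpecialRankLE G r) : List.TFAE [
    Group.IsSolvable G,
    (commutator G).lowerCentralSeries (2 * r) = ⊥,
    {C : Subgroup G | IsConvex C}.Finite ∧
      {C : Subgroup G | IsConvex C}.ncard ≤ (2 * r + 1) * r + 1,
    Cardinal.mk {C : Subgroup G // IsConvex C} < Cardinal.continuum,
    ∀ C : Subgroup G, IsConvex C → C.Normal,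
    ∀ x h : G, ¬ InfSmaller x (h⁻¹ * x * h),
    WellFoundedGT {C : Subgroup G // IsConvex C},
    WellFoundedLT {C : Subgroup G // IsConvex C},
    ∀ x h : G, Group.IsSolvable (Subgroup.closure ({x, h} : Set G))] := by
  have key := tfae_order hr
  tfae_have 1 ↔ 2 := key.out 1 2
  tfae_have 2 ↔ 3 := key.out 2 5
  tfae_have 2 ↔ 5 := key.out 2 3
  tfae_have 2 ↔ 6 := key.out 2 4
  tfae_have 2 ↔ 7 := key.out 2 6
  tfae_have 2 ↔ 8 := key.out 2 7
  tfae_have 2 ↔ 9 := key.out 2 8
  tfae_have 3 → 4 := by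
    intro h
    have : Finite {C : Subgroup G // IsConvex C} := h.1
    exact (Cardinal.lt_aleph0_of_finite _).trans Cardinal.aleph0_lt_continuum
  tfae_have 4 → 6 := by
    intro h x g hxg
    have h1 := continuum_le_of_shift hr hxg
    have h2 : Cardinal.mk {C : Subgroup G // IsConvex C ∧
        ¬ ∃ H : Subgroup G, H.FG ∧ C = isolator H} ≤
        Cardinal.mk {C : Subgroup G // IsConvex C} :=
      Cardinal.mk_subtype_mono fun C hC => hC.1
    exact absurd (h1.trans h2) (not_le_of_gt h)
  tfae_finish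

theorem tfae_isolator {r : ℕ} (hr : SpecialRankLE G r) : List.TFAE [
    ∀ C : Subgroup G, IsConvex C → ∃ H : Subgroup G, H.FG ∧ C = isolator H,
    Cardinal.mk {C : Subgroup G // IsConvex C ∧
      ¬ ∃ H : Subgroup G, H.FG ∧ C = isolator H} < Cardinal.continuum,
    Group.IsSolvable G] := by
  have key := tfae_order hr
  tfae_have 1 ↔ 3 := key.out 0 1
  tfae_have 1 → 2 := by
    intro h
    have : IsEmpty {C : Subgroup G // IsConvex C ∧ ¬ ∃ H : Subgroup G, H.FG ∧ C = isolator H} :=
      ⟨fun C => C.2.2 (h C.1 C.2.1)⟩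
    rw [Cardinal.mk_eq_zero]
    exact Cardinal.continuum_pos
  tfae_have 2 → 3 := by
    intro h
    refine (key.out 4 1).1 ?_
    intro x g hxg
    exact absurd (continuum_le_of_shift hr hxg) (not_le_of_gt h)
  tfae_finish

end OrdRank
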