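import Pool.Agent.OrdRank.Nilp

/-!
Finiteness of the set of convex subgroups, and finitely generated subgroups with prescribed
isolators.
-/

namespace OrdRank

open Subgroup
open scoped commutatorElement

variable {G : Type*} [Group G] [LinearOrder G] [MulLeftMono G] [MulRightMono G]

theorem hasChain_of_infSmaller (m : ℕ) (u : ℕ → G) (h1 : ∀ k < m, u k ≠ 1)
    (h2 : ∀ i < m, ∀ j < m, i < j → InfSmaller (u i) (u j)) : HasChain G m := by
  classical
  refine ⟨fun k => if hk : k < m then dn (u k) (h1 k hk) else ⊤, fun k => up (u k),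
    Finset.range m, Finset.card_range m, ?_, ?_⟩
  · intro i hi j hj hij
    rw [Finset.mem_range] at hi hj
    simp only [hj, dif_pos]
    exact up_le_dn (h2 i hi j hj hij)
  · intro k hk
    rw [Finset.mem_range] at hk
    simp only [hk, dif_pos]
    refine ⟨dn_le_up _ _, fun b hb a ha => conj_mem_dn _ hb ha, u k, self_mem_up _, ?_⟩
    intro n hn hmem
    exact self_notMem_dn (h1 k hk) ((dn_convex (u k) (h1 k hk)).isolated _ n hn hmem)

/-- The convex subgroups are linearly ordered. -/
@[instance_reducible] noncomputable def convLinearOrder : LinearOrder {C : Subgroup G // IsConvex C} :=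
  { (inferInstance : PartialOrder {C : Subgroup G // IsConvex C}) with
    le_total := fun C D => C.2.total D.2
    toDecidableLE := Classical.decRel _ }

theorem hasChain_of_finset (T : Finset {C : Subgroup G // IsConvex C}) (m : ℕ)
    (hT : T.card = m + 1) : HasChain G m := by
  classical
  let _ : LinearOrder {C : Subgroup G // IsConvex C} := convLinearOrder
  let e := T.orderEmbOfFin hT
  have hlt : ∀ k : Fin m, ∃ x : G, x ∈ (e k.succ).1 ∧ x ∉ (e k.castSucc).1 := by
    intro k
    have h1 : e k.castSucc < e k.succ := e.strictMono (Fin.castSucc_lt_succ)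
    have h2 : ¬ ((e k.succ).1 ≤ (e k.castSucc).1) := fun h => not_le_of_gt h1 h
    rw [SetLike.not_le_iff_exists] at h2
    exact h2
  choose u hu1 hu2 using hlt
  refine hasChain_of_infSmaller m (fun k => if hk : k < m then u ⟨k, hk⟩ else 1) ?_ ?_
  · intro k hk
    simp only [hk, dif_pos]
    intro h
    exact hu2 ⟨k, hk⟩ (h ▸ one_mem _)
  · intro i hi j hj hij
    simp only [hi, hj, dif_pos]
    have hne : u ⟨j, hj⟩ ≠ 1 := by
      intro h
      exact hu2 ⟨j, hj⟩ (h ▸ one_mem _)
    have h1 : (e (⟨j, hj⟩ : Fin m).castSucc).1 ≤ dn _ hne :=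
      le_dn (e (⟨j, hj⟩ : Fin m).castSucc).2 (hu2 ⟨j, hj⟩)
    have h2 : e (⟨i, hi⟩ : Fin m).succ ≤ e (⟨j, hj⟩ : Fin m).castSucc := by
      apply e.monotone
      rw [Fin.le_def]
      simp only [Fin.val_succ, Fin.val_castSucc]
      omega
    have h3 : u ⟨i, hi⟩ ∈ dn _ hne := h1 (h2 (hu1 ⟨i, hi⟩))
    exact h3

theorem finite_convex {B : ℕ} (hB : ∀ m, HasChain G m → m ≤ B) :
    {C : Subgroup G | IsConvex C}.Finite ∧ {C : Subgroup G | IsConvex C}.ncard ≤ B + 1 := by
  classical
  have hbound : ∀ T : Finset {C : Subgroup G // IsConvex C}, T.card ≤ B + 1 := by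
    intro T
    by_contra hcon
    have h1 : ∃ m, T.card = m + 1 := ⟨T.card - 1, by omega⟩
    obtain ⟨m, hm⟩ := h1
    have := hB m (hasChain_of_finset T m hm)
    omega
  have hfin : Finite {C : Subgroup G // IsConvex C} := by
    by_contra hinf
    rw [not_finite_iff_infinite] at hinf
    obtain ⟨T, hT⟩ := Infinite.exists_subset_card_eq {C : Subgroup G // IsConvex C} (B + 2)
    have := hbound T
    omega
  refine ⟨hfin, ?_⟩
  have : Fintype {C : Subgroup G // IsConvex C} := Fintype.ofFinite _
  have h1 := hbound Finset.univ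
  rw [← Nat.card_coe_set_eq]
  rw [Finset.card_univ, ← Nat.card_eq_fintype_card] at h1
  exact h1

theorem bot_convex : IsConvex (⊥ : Subgroup G) := by
  intro a ha b hb g h1 h2
  rw [mem_bot] at ha hb ⊢
  subst ha hb
  exact le_antisymm h2 h1

/-- In a group with bounded chains, a convex subgroup `up x` is up to powers generated by finitely
many elements and `dn x`. -/
theorem exists_finset_mod {B : ℕ} (hB : ∀ m, HasChain G m → m ≤ B) (x : G) (hx : x ≠ 1) :
    ∃ Y : Finset G, (∀ y ∈ Y, y ∈ up x) ∧
      ∀ y ∈ up x, ∃ n : ℕ, 0 < n ∧ y ^ n ∈ closure (Y : Set G) ⊔ dn x hx := by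
  classical
  by_contra hcon
  push Not at hcon
  choose! g hg1 hg2 using hcon
  obtain ⟨Y, hY0, hYs⟩ : ∃ Y : ℕ → Finset G, Y 0 = ∅ ∧
      ∀ k, Y (k + 1) = insert (g (Y k)) (Y k) :=
    ⟨fun k => Nat.rec ∅ (fun _ Z => insert (g Z) Z) k, rfl, fun k => rfl⟩
  have hYC : ∀ k, ∀ y ∈ Y k, y ∈ up x := by
    intro k
    induction k with
    | zero => intro y hy; rw [hY0] at hy; simp at hy
    | succ k ih =>
      intro y hy
      rw [hYs, Finset.mem_insert] at hy
      rcases hy with rfl | hy
      · exact hg1 _ ih
      · exact ih y hy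
  have hYmono : Monotone Y := by
    apply monotone_nat_of_le_succ
    intro k
    rw [hYs]
    exact Finset.subset_insert _ _
  have hle : ∀ k : ℕ, Subgroup.closure (↑(Y k) : Set G) ⊔ dn x hx ≤ up x := by
    intro k
    refine sup_le ?_ (dn_le_up x hx)
    rw [Subgroup.closure_le]
    intro y hy
    exact hYC k y hy
  have hchain : HasChain G (B + 1) := by
    refine ⟨fun k => Subgroup.closure (↑(Y k) : Set G) ⊔ dn x hx,
      fun k => Subgroup.closure (↑(Y (k + 1)) : Set G) ⊔ dn x hx, Finset.range (B + 1),
      Finset.card_range _, ?_, ?_⟩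
    · intro i _ j _ hij
      exact sup_le_sup_right (closure_mono (Finset.coe_subset.2 (hYmono hij))) _
    · intro k _
      refine ⟨sup_le_sup_right (closure_mono (Finset.coe_subset.2 (hYmono (Nat.le_succ k)))) _,
        ?_, g (Y k), ?_, ?_⟩
      · intro b hb a ha
        have h1 := commutator_mem_dn hx (hle _ hb) (hle _ ha)
        have e : b * a * b⁻¹ = ⁅b, a⁆ * a := by rw [commutatorElement_def]; group
        rw [e]
        exact mul_mem (mem_sup_right h1) ha
      · apply mem_sup_left
        apply Subgroup.subset_closure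
        rw [hYs]
        simp
      · intro n hn
        exact hg2 (Y k) (hYC k) n hn
  have := hB _ hchain
  omega

/-- In a group with bounded chains every convex subgroup is the isolator of a finitely generated
subgroup. -/
theorem exists_fg_isolator {B : ℕ} (hB : ∀ m, HasChain G m → m ≤ B) (C : Subgroup G)
    (hC : IsConvex C) : ∃ H : Subgroup G, H.FG ∧ C = isolator H := by
  classical
  obtain ⟨hfin, -⟩ := finite_convex hB
  have hfin' : Finite {C : Subgroup G // IsConvex C} := hfin
  have key : ∀ C : {C : Subgroup G // IsConvex C}, ∃ H : Subgroup G, H.FG ∧ C.1 = isolator H := by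
    intro C
    induction C using WellFoundedLT.induction with
    | ind C ih =>
    obtain ⟨C, hC⟩ := C
    by_cases hCb : C = ⊥
    · refine ⟨⊥, ⟨∅, by simp⟩, ?_⟩
      subst hCb
      exact le_antisymm bot_le (isolator_le le_rfl bot_convex.isolated)
    · -- an element generating `C` as a convex subgroup
      have hex : ∃ x ∈ C, up x = C := by
        have hne : {D : {C : Subgroup G // IsConvex C} | ∃ x ∈ C, up x = D.1}.Nonempty :=
          ⟨⟨up 1, up_convex 1⟩, 1, C.one_mem, rfl⟩
        obtain ⟨D, ⟨x, hxC, hxD⟩, hmax⟩ := (Set.toFinite _).exists_maximal hne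
        refine ⟨x, hxC, le_antisymm (up_le hC hxC) ?_⟩
        intro y hy
        rcases (up_convex x).total (up_convex y) with h | h
        · have := hmax (y := ⟨up y, up_convex y⟩) ⟨y, hy, rfl⟩ (by
            change D.1 ≤ up y
            rw [← hxD]; exact h)
          have h2 : up y ≤ D.1 := this
          rw [← hxD] at h2
          exact h2 (self_mem_up y)
        · exact h (self_mem_up y)
      obtain ⟨x, hxC, hxup⟩ := hex
      have hx1 : x ≠ 1 := by
        rintro rfl
        apply hCb
        rw [eq_bot_iff, ← hxup]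
        rintro g ⟨n, hn⟩
        rw [mabs_one, one_pow] at hn
        rw [mem_bot]
        exact mabs_le_one.1 hn
      have hlt : (⟨dn x hx1, dn_convex x hx1⟩ : {C : Subgroup G // IsConvex C}) < ⟨C, hC⟩ := by
        refine lt_of_le_of_ne ?_ ?_
        · change dn x hx1 ≤ C
          rw [← hxup]; exact dn_le_up x hx1
        · intro h
          have h1 : dn x hx1 = C := congrArg Subtype.val h
          exact self_notMem_dn hx1 (h1 ▸ hxC)
      obtain ⟨H₀, hH₀, hD⟩ := ih _ hlt
      obtain ⟨Y, hYC, hY⟩ := exists_finset_mod hB x hx1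
      have hD' : dn x hx1 = isolator H₀ := hD
      refine ⟨H₀ ⊔ closure (Y : Set G), hH₀.sup ⟨Y, rfl⟩, le_antisymm ?_ ?_⟩
      · intro y hy
        change y ∈ C at hy
        rw [← hxup] at hy
        obtain ⟨n, hn, hyn⟩ := hY y hy
        apply isolator_isolated _ y n hn
        refine (sup_le ?_ ?_ : closure (Y : Set G) ⊔ dn x hx1 ≤ _) hyn
        · exact le_sup_right.trans (le_isolator _)
        · rw [hD']
          exact isolator_le (le_sup_left.trans (le_isolator _)) (isolator_isolated _)
      · refine isolator_le (sup_le ?_ ?_) hC.isolated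
        · refine (le_isolator H₀).trans ?_
          rw [← hD']
          exact (dn_le_up x hx1).trans hxup.le
        · rw [closure_le]
          intro y hy
          change y ∈ C
          rw [← hxup]
          exact hYC y hy
  exact key ⟨C, hC⟩

end OrdRank
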