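import Pool.Agent.OrdRank.Order

/-!
Hölder's theorem for the archimedean factors `up x / dn x` of a bi-ordered group, by hand.
-/

namespace OrdRank

open Subgroup
open scoped commutatorElement

variable {G : Type*} [Group G] [LinearOrder G] [MulLeftMono G] [MulRightMono G]

theorem pow_mul_le_of {y z : G} (h : y * z ≤ z * y) (n : ℕ) : y ^ n * z ≤ z * y ^ n := by
  induction n with
  | zero => simp
  | succ n ih =>
    calc y ^ (n + 1) * z = y ^ n * (y * z) := by rw [pow_succ, mul_assoc]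
      _ ≤ y ^ n * (z * y) := mul_le_mul' le_rfl h
      _ = (y ^ n * z) * y := by rw [mul_assoc]
      _ ≤ (z * y ^ n) * y := mul_le_mul' ih le_rfl
      _ = z * y ^ (n + 1) := by rw [pow_succ, mul_assoc]

theorem mul_pow_le_of {y z : G} (h : y * z ≤ z * y) (n : ℕ) : y * z ^ n ≤ z ^ n * y := by
  induction n with
  | zero => simp
  | succ n ih =>
    calc y * z ^ (n + 1) = (y * z) * z ^ n := by rw [pow_succ', mul_assoc]
      _ ≤ (z * y) * z ^ n := mul_le_mul' h le_rfl
      _ = z * (y * z ^ n) := by rw [mul_assoc]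
      _ ≤ z * (z ^ n * y) := mul_le_mul' le_rfl ih
      _ = z ^ (n + 1) * y := by rw [pow_succ', mul_assoc]

theorem pow_mul_pow_le {y z : G} (h : y * z ≤ z * y) (n : ℕ) : y ^ n * z ^ n ≤ (y * z) ^ n := by
  induction n with
  | zero => simp
  | succ n ih =>
    calc y ^ (n + 1) * z ^ (n + 1) = y * (y ^ n * z) * z ^ n := by
          rw [pow_succ', pow_succ']; simp only [mul_assoc]
      _ ≤ y * (z * y ^ n) * z ^ n :=
          mul_le_mul' (mul_le_mul' le_rfl (pow_mul_le_of h n)) le_rfl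
      _ = (y * z) * (y ^ n * z ^ n) := by simp only [mul_assoc]
      _ ≤ (y * z) * (y * z) ^ n := mul_le_mul' le_rfl ih
      _ = (y * z) ^ (n + 1) := (pow_succ' _ _).symm

theorem mul_pow_le_pow {y z : G} (h : y * z ≤ z * y) (n : ℕ) : (y * z) ^ n ≤ z ^ n * y ^ n := by
  induction n with
  | zero => simp
  | succ n ih =>
    calc (y * z) ^ (n + 1) = (y * z) ^ n * (y * z) := pow_succ _ _
      _ ≤ (z ^ n * y ^ n) * (y * z) := mul_le_mul' ih le_rfl
      _ = z ^ n * (y ^ (n + 1) * z) := by rw [pow_succ]; simp only [mul_assoc]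
      _ ≤ z ^ n * (z * y ^ (n + 1)) := mul_le_mul' le_rfl (pow_mul_le_of h (n + 1))
      _ = z ^ (n + 1) * y ^ (n + 1) := by rw [pow_succ z]; simp only [mul_assoc]

theorem mul_pow_le_pow' {y z : G} (h : z * y ≤ y * z) (n : ℕ) : (y * z) ^ n ≤ y ^ n * z ^ n := by
  induction n with
  | zero => simp
  | succ n ih =>
    calc (y * z) ^ (n + 1) = (y * z) ^ n * (y * z) := pow_succ _ _
      _ ≤ (y ^ n * z ^ n) * (y * z) := mul_le_mul' ih le_rfl
      _ = y ^ n * (z ^ n * y) * z := by simp only [mul_assoc]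
      _ ≤ y ^ n * (y * z ^ n) * z :=
          mul_le_mul' (mul_le_mul' le_rfl (pow_mul_le_of h n)) le_rfl
      _ = y ^ (n + 1) * z ^ (n + 1) := by rw [pow_succ, pow_succ]; simp only [mul_assoc]

theorem zpow_strictMono' {X : G} (hX : 1 < X) : StrictMono fun n : ℤ => X ^ n := by
  refine strictMono_int_of_lt_succ fun n => ?_
  rw [zpow_add_one]
  exact lt_mul_of_one_lt_right' (X ^ n) hX

theorem zpow_le_iff {X : G} (hX : 1 < X) {m n : ℤ} : X ^ m ≤ X ^ n ↔ m ≤ n :=
  (zpow_strictMono' hX).le_iff_le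

/-- Every element of `up x` lies between two consecutive powers of `|x|`. -/
theorem exists_floor {x y : G} (hx : x ≠ 1) (hy : y ∈ up x) :
    ∃ p : ℤ, |x|ₘ ^ p ≤ y ∧ y < |x|ₘ ^ (p + 1) := by
  have hX : 1 < |x|ₘ := one_lt_mabs.2 hx
  obtain ⟨n, hn⟩ := hy
  have h1 : y ≤ |x|ₘ ^ (n : ℤ) := by
    rw [zpow_natCast]; exact (le_mabs_self y).trans hn
  have h2 : |x|ₘ ^ (-(n : ℤ)) ≤ y := by
    rw [zpow_neg, zpow_natCast]
    exact (inv_le_inv_iff.2 hn).trans (inv_mabs_le y)
  obtain ⟨p, hp, hmax⟩ := Int.exists_greatest_of_bdd (P := fun p : ℤ => |x|ₘ ^ p ≤ y)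
    ⟨n, fun z hz => (zpow_le_iff hX).1 (le_trans hz h1)⟩ ⟨-n, h2⟩
  refine ⟨p, hp, ?_⟩
  by_contra hcon
  rw [not_lt] at hcon
  have := hmax _ hcon
  omega

/-- The set of rationals `p / q` with `|x| ^ p ≤ y ^ q`. -/
def ratioSet (x y : G) : Set ℝ :=
  {s | ∃ (p : ℤ) (q : ℕ), 0 < q ∧ |x|ₘ ^ p ≤ y ^ q ∧ s = (p : ℝ) / q}

/-- The image of `y` under the Hölder map `up x → ℝ` normalised by `|x| ↦ 1`. -/
noncomputable def ratio (x y : G) : ℝ := sSup (ratioSet x y)

theorem ratioSet_le {x y : G} (hx : x ≠ 1) {p : ℤ} {q : ℕ} (hq : 0 < q) (h : y ^ q ≤ |x|ₘ ^ p) :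
    ∀ s ∈ ratioSet x y, s ≤ (p : ℝ) / q := by
  have hX : 1 < |x|ₘ := one_lt_mabs.2 hx
  rintro s ⟨p', q', hq', h', rfl⟩
  have h1 : |x|ₘ ^ (p' * q) ≤ |x|ₘ ^ (p * q') := by
    calc |x|ₘ ^ (p' * q) = (|x|ₘ ^ p') ^ q := by rw [zpow_mul, zpow_natCast]
      _ ≤ (y ^ q') ^ q := pow_le_pow_left' h' q
      _ = (y ^ q) ^ q' := by rw [← pow_mul, ← pow_mul, mul_comm]
      _ ≤ (|x|ₘ ^ p) ^ q' := pow_le_pow_left' h q'
      _ = |x|ₘ ^ (p * q') := by rw [zpow_mul, zpow_natCast]
  have h2 : p' * q ≤ p * q' := (zpow_le_iff hX).1 h1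
  have hq0 : (0 : ℝ) < q := by exact_mod_cast hq
  have hq0' : (0 : ℝ) < q' := by exact_mod_cast hq'
  rw [div_le_div_iff₀ hq0' hq0]
  exact_mod_cast h2

theorem ratio_lower {x y : G} (hx : x ≠ 1) (hy : y ∈ up x) {p : ℤ} {q : ℕ} (hq : 0 < q)
    (h : |x|ₘ ^ p ≤ y ^ q) : (p : ℝ) ≤ q * ratio x y := by
  obtain ⟨n, hn1, hn2⟩ := exists_floor hx hy
  have hbdd : BddAbove (ratioSet x y) :=
    ⟨_, ratioSet_le hx one_pos (by rw [pow_one]; exact hn2.le)⟩
  have h1 : (p : ℝ) / q ≤ ratio x y := le_csSup hbdd ⟨p, q, hq, h, rfl⟩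
  have hq0 : (0 : ℝ) < q := by exact_mod_cast hq
  rw [div_le_iff₀ hq0] at h1
  linarith

theorem ratio_upper {x y : G} (hx : x ≠ 1) (hy : y ∈ up x) {p : ℤ} {q : ℕ} (hq : 0 < q)
    (h : y ^ q ≤ |x|ₘ ^ p) : q * ratio x y ≤ (p : ℝ) := by
  obtain ⟨n, hn1, hn2⟩ := exists_floor hx hy
  have hne : (ratioSet x y).Nonempty := ⟨_, n, 1, one_pos, by rwa [pow_one], rfl⟩
  have h1 : ratio x y ≤ (p : ℝ) / q := csSup_le hne (ratioSet_le hx hq h)
  have hq0 : (0 : ℝ) < q := by exact_mod_cast hq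
  rw [le_div_iff₀ hq0] at h1
  linarith

/-- A real number `a` with `|N a| ≤ c` for all positive integers `N` vanishes. -/
theorem eq_zero_of_bdd {a c : ℝ} (h : ∀ N : ℕ, 0 < N → |N * a| ≤ c) : a = 0 := by
  by_contra ha
  have ha' : 0 < |a| := abs_pos.2 ha
  obtain ⟨N, hN⟩ := exists_nat_gt (c / |a|)
  have h1 := h (N + 1) (Nat.succ_pos N)
  rw [div_lt_iff₀ ha'] at hN
  rw [abs_mul, Nat.abs_cast] at h1
  push_cast at h1
  nlinarith

theorem ratio_mul {x y z : G} (hx : x ≠ 1) (hy : y ∈ up x) (hz : z ∈ up x) :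
    ratio x (y * z) = ratio x y + ratio x z := by
  have key : ratio x (y * z) - (ratio x y + ratio x z) = 0 := by
    apply eq_zero_of_bdd (c := 2)
    intro N hN
    obtain ⟨a, ha1, ha2⟩ := exists_floor hx ((up x).pow_mem hy N)
    obtain ⟨b, hb1, hb2⟩ := exists_floor hx ((up x).pow_mem hz N)
    have l1 := ratio_lower hx hy hN ha1
    have l2 := ratio_upper hx hy hN ha2.le
    have l3 := ratio_lower hx hz hN hb1
    have l4 := ratio_upper hx hz hN hb2.le
    have hyz := (up x).mul_mem hy hz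
    have low : |x|ₘ ^ (a + b) ≤ (y * z) ^ N := by
      rcases le_total (y * z) (z * y) with h | h
      · refine le_trans ?_ (pow_mul_pow_le h N)
        rw [zpow_add]
        exact mul_le_mul' ha1 hb1
      · refine le_trans ?_ (?_ : z ^ N * y ^ N ≤ (y * z) ^ N)
        · rw [add_comm, zpow_add]
          exact mul_le_mul' hb1 ha1
        · have h1 := pow_mul_pow_le h N
          exact h1.trans (pow_le_pow_left' h N)
    have upp : (y * z) ^ N ≤ |x|ₘ ^ (a + b + 2) := by
      rcases le_total (y * z) (z * y) with h | h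
      · refine (mul_pow_le_pow h N).trans ?_
        rw [show a + b + 2 = (b + 1) + (a + 1) by ring, zpow_add]
        exact mul_le_mul' hb2.le ha2.le
      · refine (mul_pow_le_pow' h N).trans ?_
        rw [show a + b + 2 = (a + 1) + (b + 1) by ring, zpow_add]
        exact mul_le_mul' ha2.le hb2.le
    have l5 := ratio_lower hx hyz hN low
    have l6 := ratio_upper hx hyz hN upp
    push_cast at l2 l4 l5 l6
    rw [abs_le]
    constructor <;> nlinarith
  linarith

theorem ratio_one {x : G} (hx : x ≠ 1) : ratio x 1 = 0 := by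
  have := ratio_mul hx (up x).one_mem (up x).one_mem
  rw [one_mul] at this
  linarith

theorem ratio_inv {x y : G} (hx : x ≠ 1) (hy : y ∈ up x) : ratio x y⁻¹ = - ratio x y := by
  have := ratio_mul hx hy ((up x).inv_mem hy)
  rw [mul_inv_cancel, ratio_one hx] at this
  linarith

theorem ratio_mono {x y z : G} (hx : x ≠ 1) (hy : y ∈ up x) (hz : z ∈ up x) (h : y ≤ z) :
    ratio x y ≤ ratio x z := by
  have h1 : (1 : G) ≤ y⁻¹ * z := by
    calc (1 : G) = y⁻¹ * y := (inv_mul_cancel y).symm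
      _ ≤ y⁻¹ * z := mul_le_mul' le_rfl h
  have h2 := ratio_lower (p := 0) hx ((up x).mul_mem ((up x).inv_mem hy) hz) one_pos
    (by rw [zpow_zero, pow_one]; exact h1)
  rw [ratio_mul hx ((up x).inv_mem hy) hz, ratio_inv hx hy] at h2
  push_cast at h2
  linarith

theorem mabs_mem_up (x : G) : |x|ₘ ∈ up x := ⟨1, by rw [pow_one, mabs_mabs]⟩

theorem ratio_mabs {x : G} (hx : x ≠ 1) : ratio x |x|ₘ = 1 := by
  have h1 := ratio_lower (p := 1) hx (mabs_mem_up x) one_pos (by rw [zpow_one, pow_one])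
  have h2 := ratio_upper (p := 1) hx (mabs_mem_up x) one_pos (by rw [zpow_one, pow_one])
  push_cast at h1 h2
  linarith

theorem ratio_pow {x y : G} (hx : x ≠ 1) (hy : y ∈ up x) (n : ℕ) :
    ratio x (y ^ n) = n * ratio x y := by
  induction n with
  | zero => simp [ratio_one hx]
  | succ n ih =>
    rw [pow_succ, ratio_mul hx ((up x).pow_mem hy n) hy, ih]
    push_cast
    ring

/-- The kernel of the Hölder map on `up x` is `dn x`. -/
theorem mem_dn_iff_ratio {x y : G} (hx : x ≠ 1) (hy : y ∈ up x) :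
    y ∈ dn x hx ↔ ratio x y = 0 := by
  constructor
  · intro h
    apply eq_zero_of_bdd (c := 1)
    intro N hN
    have h1 : |x|ₘ ^ (-1 : ℤ) ≤ y ^ N := by
      have h2 := (h N).le
      have h3 : (|y|ₘ ^ N)⁻¹ ≤ y ^ N := by
        rw [← inv_pow]
        exact pow_le_pow_left' (inv_mabs_le y) N
      rw [zpow_neg, zpow_one]
      exact (inv_le_inv_iff.2 h2).trans h3
    have h2 : y ^ N ≤ |x|ₘ ^ (1 : ℤ) := by
      rw [zpow_one]
      exact (pow_le_pow_left' (le_mabs_self y) N).trans (h N).le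
    have l1 := ratio_lower hx hy hN h1
    have l2 := ratio_upper hx hy hN h2
    push_cast at l1 l2
    rw [abs_le]
    exact ⟨l1, l2⟩
  · intro h
    by_contra hcon
    rw [mem_dn] at hcon
    push Not at hcon
    obtain ⟨n, hn⟩ := hcon
    have hay : |y|ₘ ∈ up x := IsConvex.mabs_mem.2 hy
    have h1 := ratio_mono hx (mabs_mem_up x) ((up x).pow_mem hay n) hn
    rw [ratio_mabs hx, ratio_pow hx hay] at h1
    have h2 : ratio x |y|ₘ = 0 := by
      rcases mabs_choice y with h3 | h3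
      · rw [h3, h]
      · rw [h3, ratio_inv hx hy, h, neg_zero]
    rw [h2, mul_zero] at h1
    linarith

/-- A monotone additive function on `up x` is a multiple of the Hölder map. -/
theorem ratio_unique {x : G} (hx : x ≠ 1) (ψ : G → ℝ)
    (hmul : ∀ y ∈ up x, ∀ z ∈ up x, ψ (y * z) = ψ y + ψ z)
    (hmono : ∀ y ∈ up x, ∀ z ∈ up x, y ≤ z → ψ y ≤ ψ z) {y : G} (hy : y ∈ up x) :
    ψ y = ratio x y * ψ |x|ₘ := by
  have hone : ψ 1 = 0 := by
    have := hmul 1 (up x).one_mem 1 (up x).one_mem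
    rw [one_mul] at this
    linarith
  have hinv : ∀ y ∈ up x, ψ y⁻¹ = - ψ y := by
    intro y hy
    have := hmul y hy _ ((up x).inv_mem hy)
    rw [mul_inv_cancel, hone] at this
    linarith
  have hpow : ∀ y ∈ up x, ∀ n : ℕ, ψ (y ^ n) = n * ψ y := by
    intro y hy n
    induction n with
    | zero => simp [hone]
    | succ n ih =>
      rw [pow_succ, hmul _ ((up x).pow_mem hy n) _ hy, ih]
      push_cast
      ring
  have hzpow : ∀ y ∈ up x, ∀ n : ℤ, ψ (y ^ n) = n * ψ y := by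
    intro y hy n
    rcases Int.eq_nat_or_neg n with ⟨k, rfl | rfl⟩
    · rw [zpow_natCast, hpow y hy]
      push_cast
      ring
    · rw [zpow_neg, zpow_natCast, hinv _ ((up x).pow_mem hy k), hpow y hy]
      push_cast
      ring
  have hX0 : 0 ≤ ψ |x|ₘ := by
    rw [← hone]
    exact hmono _ (up x).one_mem _ (mabs_mem_up x) (one_le_mabs x)
  have key : ψ y - ratio x y * ψ |x|ₘ = 0 := by
    apply eq_zero_of_bdd (c := ψ |x|ₘ)
    intro N hN
    have hyN := (up x).pow_mem hy N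
    obtain ⟨a, ha1, ha2⟩ := exists_floor hx hyN
    have l1 := ratio_lower hx hy hN ha1
    have l2 := ratio_upper hx hy hN ha2.le
    have m1 := hmono _ ((up x).zpow_mem (mabs_mem_up x) a) _ hyN ha1
    have m2 := hmono _ hyN _ ((up x).zpow_mem (mabs_mem_up x) (a + 1)) ha2.le
    rw [hpow y hy, hzpow _ (mabs_mem_up x)] at m1 m2
    push_cast at l1 l2 m1 m2
    have k1 := mul_le_mul_of_nonneg_right l1 hX0
    have k2 := mul_le_mul_of_nonneg_right l2 hX0
    rw [abs_le]
    constructor <;> nlinarith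
  linarith

/-- `up x` normalises `dn x`. -/
theorem conj_mem_dn {x : G} (hx : x ≠ 1) {b : G} (hb : b ∈ up x) {a : G} (ha : a ∈ dn x hx) :
    b * a * b⁻¹ ∈ dn x hx := by
  have ha' := dn_le_up x hx ha
  have hba := (up x).mul_mem hb ha'
  have hb' := (up x).inv_mem hb
  rw [mem_dn_iff_ratio hx ((up x).mul_mem hba hb'), ratio_mul hx hba hb', ratio_mul hx hb ha',
    ratio_inv hx hb, (mem_dn_iff_ratio hx ha').1 ha]
  ring

/-- Commutators of elements of `up x` are in `dn x`. -/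
theorem commutator_mem_dn {x : G} (hx : x ≠ 1) {a b : G} (ha : a ∈ up x) (hb : b ∈ up x) :
    ⁅a, b⁆ ∈ dn x hx := by
  have ha' := (up x).inv_mem ha
  have hb' := (up x).inv_mem hb
  have hab := (up x).mul_mem ha hb
  have haba := (up x).mul_mem hab ha'
  rw [commutatorElement_def, mem_dn_iff_ratio hx ((up x).mul_mem haba hb'),
    ratio_mul hx haba hb', ratio_mul hx hab ha', ratio_mul hx ha hb, ratio_inv hx ha,
    ratio_inv hx hb]
  ring

/-- If `up x` is normal in `G`, then the commutator subgroup of `G` acts trivially on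
`up x / dn x`. -/
theorem commutator_mem_dn_of_normal {x : G} (hx : x ≠ 1) (hn : (up x).Normal) {c : G}
    (hc : c ∈ commutator G) {y : G} (hy : y ∈ up x) : ⁅c, y⁆ ∈ dn x hx := by
  have hconj : ∀ g : G, ∀ y ∈ up x, g * y * g⁻¹ ∈ up x := fun g y hy => hn.conj_mem y hy g
  -- scaling factor
  have hscale : ∀ g : G, ∀ y ∈ up x,
      ratio x (g * y * g⁻¹) = ratio x y * ratio x (g * |x|ₘ * g⁻¹) := by
    intro g y hy
    refine ratio_unique hx (fun y => ratio x (g * y * g⁻¹)) ?_ ?_ hy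
    · intro y hy z hz
      have e : g * (y * z) * g⁻¹ = (g * y * g⁻¹) * (g * z * g⁻¹) := by group
      rw [e, ratio_mul hx (hconj g y hy) (hconj g z hz)]
    · intro y hy z hz hyz
      exact ratio_mono hx (hconj g y hy) (hconj g z hz)
        (mul_le_mul' (mul_le_mul' le_rfl hyz) le_rfl)
  let lam : G →* ℝ :=
    { toFun := fun g => ratio x (g * |x|ₘ * g⁻¹)
      map_one' := by simp only [one_mul, inv_one, mul_one]; exact ratio_mabs hx
      map_mul' := by
        intro g h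
        have e : g * h * |x|ₘ * (g * h)⁻¹ = g * (h * |x|ₘ * h⁻¹) * g⁻¹ := by group
        rw [e, hscale g _ (hconj h _ (mabs_mem_up x)), mul_comm] }
  have hlam : ∀ c ∈ commutator G, lam c = 1 := by
    intro c hc
    rw [commutator_eq_closure] at hc
    induction hc using Subgroup.closure_induction with
    | mem c hc =>
      obtain ⟨g, h, rfl⟩ := hc
      rw [commutatorElement_def, map_mul, map_mul, map_mul]
      calc lam g * lam h * lam g⁻¹ * lam h⁻¹ = (lam g * lam g⁻¹) * (lam h * lam h⁻¹) := by ring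
        _ = lam (g * g⁻¹) * lam (h * h⁻¹) := by rw [map_mul, map_mul]
        _ = 1 := by rw [mul_inv_cancel, mul_inv_cancel, map_one, mul_one]
    | one => exact map_one lam
    | mul a b _ _ ha hb => rw [map_mul, ha, hb, mul_one]
    | inv a _ ha =>
      have : lam (a * a⁻¹) = 1 := by rw [mul_inv_cancel, map_one]
      rw [map_mul, ha, one_mul] at this
      exact this
  have h1 := hscale c y hy
  have h2 : ratio x (c * |x|ₘ * c⁻¹) = 1 := hlam c hc
  rw [h2, mul_one] at h1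
  have hcy := hconj c y hy
  have e : ⁅c, y⁆ = (c * y * c⁻¹) * y⁻¹ := commutatorElement_def c y
  have hy' := (up x).inv_mem hy
  rw [e, mem_dn_iff_ratio hx ((up x).mul_mem hcy hy'), ratio_mul hx hcy hy', h1,
    ratio_inv hx hy]
  ring

end OrdRank
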