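import Pool.Agent.OrdRank.Finite

/-!
The main equivalences.
-/

namespace OrdRank

open Subgroup
open scoped commutatorElement

theorem isSolvable_of_nilpotent_commutator {G : Type*} [Group G] {n : ℕ}
    (h : (commutator G).lowerCentralSeries n = ⊥) : derivedSeries G (n + 1) = ⊥ := by
  rw [← map_derivedSeries_commutator, eq_bot_iff, ← h, ← top_subtype_lowerCentralSeries]
  exact map_mono (Subgroup.derived_le_lower_central n)

variable {G : Type*} [Group G] [LinearOrder G] [MulLeftMono G] [MulRightMono G]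

/-- Ascending orbit of a convex subgroup under a conjugation. -/
theorem infSmaller_seq {x h : G} (hxh : InfSmaller x (h⁻¹ * x * h)) (n : ℕ) :
    InfSmaller ((h ^ n)⁻¹ * x * h ^ n) ((h ^ (n + 1))⁻¹ * x * h ^ (n + 1)) := by
  have h1 := infSmaller_conj ((h ^ n)⁻¹) hxh
  have e1 : (h ^ n)⁻¹ * x * (h ^ n)⁻¹⁻¹ = (h ^ n)⁻¹ * x * h ^ n := by rw [inv_inv]
  have e2 : (h ^ n)⁻¹ * (h⁻¹ * x * h) * (h ^ n)⁻¹⁻¹ = (h ^ (n + 1))⁻¹ * x * h ^ (n + 1) := by
    rw [inv_inv, pow_succ']; group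
  rw [e1, e2] at h1
  exact h1

theorem infSmaller_seq' {x h : G} (hxh : InfSmaller x (h⁻¹ * x * h)) (n : ℕ) :
    InfSmaller (h ^ (n + 1) * x * (h ^ (n + 1))⁻¹) (h ^ n * x * (h ^ n)⁻¹) := by
  have h1 := infSmaller_conj (h ^ (n + 1)) hxh
  have e2 : h ^ (n + 1) * (h⁻¹ * x * h) * (h ^ (n + 1))⁻¹ = h ^ n * x * (h ^ n)⁻¹ := by
    rw [pow_succ]; group
  rw [e2] at h1
  exact h1

theorem up_lt_of_infSmaller {x y : G} (h : InfSmaller x y) : up x < up y := by
  refine lt_of_le_of_ne ((up_le_dn h.mem_dn).trans (dn_le_up y h.ne_one)) ?_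
  intro he
  have h1 : y ∈ up x := he ▸ self_mem_up y
  exact self_notMem_dn h.ne_one (up_le_dn h.mem_dn h1)

theorem strictMono_up {x h : G} (hxh : InfSmaller x (h⁻¹ * x * h)) :
    StrictMono fun n : ℕ => (⟨up ((h ^ n)⁻¹ * x * h ^ n), up_convex _⟩ :
      {C : Subgroup G // IsConvex C}) :=
  strictMono_nat_of_lt_succ fun n => up_lt_of_infSmaller (infSmaller_seq hxh n)

theorem strictAnti_up {x h : G} (hxh : InfSmaller x (h⁻¹ * x * h)) :
    StrictAnti fun n : ℕ => (⟨up (h ^ n * x * (h ^ n)⁻¹), up_convex _⟩ :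
      {C : Subgroup G // IsConvex C}) :=
  strictAnti_nat_of_succ_lt fun n => up_lt_of_infSmaller (infSmaller_seq' hxh n)

/-- If every convex subgroup is the isolator of a finitely generated subgroup then no element is
infinitely smaller than one of its conjugates. -/
theorem no_shift_of_fg (hfg : ∀ C : Subgroup G, IsConvex C → ∃ H : Subgroup G, H.FG ∧
    C = isolator H) (x h : G) : ¬ InfSmaller x (h⁻¹ * x * h) := by
  intro hxh
  set V : ℕ → Subgroup G := fun n => up ((h ^ n)⁻¹ * x * h ^ n) with hV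
  have hVmono : Monotone V := fun i j hij => (strictMono_up hxh).monotone hij
  have hdir : Directed (· ≤ ·) V := hVmono.directed_le
  have hconv : IsConvex (⨆ n, V n) := by
    intro a ha b hb g h1 h2
    rw [mem_iSup_of_directed hdir] at ha hb ⊢
    obtain ⟨i, hi⟩ := ha
    obtain ⟨j, hj⟩ := hb
    exact ⟨max i j, up_convex _ a (hVmono (le_max_left i j) hi) b
      (hVmono (le_max_right i j) hj) g h1 h2⟩
  obtain ⟨H, ⟨S, hS⟩, hC⟩ := hfg _ hconv
  have hHV : H ≤ ⨆ n, V n := by rw [hC]; exact le_isolator H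
  have hfin : ∃ n, ∀ s ∈ S, s ∈ V n := by
    have h1 : ∀ s ∈ S, ∃ n, s ∈ V n := by
      intro s hs
      rw [← mem_iSup_of_directed hdir]
      exact hHV (hS ▸ Subgroup.subset_closure hs)
    choose! N hN using h1
    exact ⟨S.sup N, fun s hs => hVmono (Finset.le_sup hs) (hN s hs)⟩
  obtain ⟨n, hn⟩ := hfin
  have h1 : H ≤ V n := by
    rw [← hS, Subgroup.closure_le]
    exact hn
  have h2 : (⨆ n, V n) ≤ V n := by
    rw [hC]
    exact isolator_le h1 (up_convex _).isolated
  have h3 : V (n + 1) ≤ V n := (le_iSup V (n + 1)).trans h2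
  exact not_le_of_gt (strictMono_up hxh (Nat.lt_succ_self n)) h3

theorem normal_of_no_shift (h5 : ∀ x h : G, ¬ InfSmaller x (h⁻¹ * x * h)) (C : Subgroup G)
    (hC : IsConvex C) : C.Normal := by
  refine ⟨fun x hx g => ?_⟩
  by_contra hcon
  have hne : g * x * g⁻¹ ≠ 1 := by
    intro h
    exact hcon (h ▸ C.one_mem)
  have h1 : x ∈ dn _ hne := le_dn hC hcon hx
  have h2 := h5 x g⁻¹
  rw [inv_inv] at h2
  exact h2 h1

theorem no_shift_of_gt (h7 : WellFoundedGT {C : Subgroup G // IsConvex C}) (x h : G) :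
    ¬ InfSmaller x (h⁻¹ * x * h) := by
  intro hxh
  obtain ⟨n, hn⟩ := (wellFoundedGT_iff_monotone_chain_condition.1 h7)
    ⟨_, (strictMono_up hxh).monotone⟩
  have h1 := hn (n + 1) (Nat.le_succ n)
  exact absurd h1 (strictMono_up hxh (Nat.lt_succ_self n)).ne

theorem no_shift_of_lt (h8 : WellFoundedLT {C : Subgroup G // IsConvex C}) (x h : G) :
    ¬ InfSmaller x (h⁻¹ * x * h) := by
  intro hxh
  obtain ⟨_, ⟨n, rfl⟩, hn⟩ := h8.wf.has_min (Set.range fun n : ℕ =>
    (⟨up (h ^ n * x * (h ^ n)⁻¹), up_convex _⟩ : {C : Subgroup G // IsConvex C})) ⟨_, 0, rfl⟩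
  exact hn _ ⟨n + 1, rfl⟩ (strictAnti_up hxh (Nat.lt_succ_self n))

instance mulLeftMono_subgroup (T : Subgroup G) : MulLeftMono T :=
  ⟨fun a b c h => (mul_le_mul' (le_refl (a : G)) (show (b : G) ≤ c from h) : (a : G) * b ≤ a * c)⟩

instance mulRightMono_subgroup (T : Subgroup G) : MulRightMono T :=
  ⟨fun a b c h => (mul_le_mul' (show (b : G) ≤ c from h) (le_refl (a : G)) : (b : G) * a ≤ c * a)⟩

theorem mabs_coe {T : Subgroup G} (t : T) : ((|t|ₘ : T) : G) = |(t : G)|ₘ := by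
  rcases le_total 1 t with h | h
  · rw [mabs_of_one_le h, mabs_of_one_le (show (1 : G) ≤ t from h)]
  · rw [mabs_of_le_one h, mabs_of_le_one (show (t : G) ≤ 1 from h)]
    rfl

theorem no_shift_of_two_generated {r : ℕ} (hr : SpecialRankLE G r)
    (h9 : ∀ x h : G, Group.IsSolvable (closure ({x, h} : Set G))) (x h : G) :
    ¬ InfSmaller x (h⁻¹ * x * h) := by
  intro hxh
  set T := closure ({x, h} : Set G) with hT
  have hx : x ∈ T := Subgroup.subset_closure (by simp)
  have hh : h ∈ T := Subgroup.subset_closure (by simp)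
  obtain ⟨n, hn⟩ := (Group.isSolvable_def T).1 (h9 x h)
  have hB := HasChain.le_of_derivedSeries n T (hr.subgroup T) hn
  have h1 := no_shift_of_fg (G := T) (fun C hC => exists_fg_isolator hB C hC) ⟨x, hx⟩ ⟨h, hh⟩
  apply h1
  intro k
  have h2 := hxh k
  change ((|(⟨x, hx⟩ : T)|ₘ ^ k : T) : G) < ((|(⟨h, hh⟩ : T)⁻¹ * ⟨x, hx⟩ * ⟨h, hh⟩|ₘ : T) : G)
  rw [Subgroup.coe_pow, mabs_coe, mabs_coe]
  exact h2

/-- The equivalences for one bi-ordered group of finite special rank. -/
theorem tfae_order {r : ℕ} (hr : SpecialRankLE G r) : List.TFAE [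
    ∀ C : Subgroup G, IsConvex C → ∃ H : Subgroup G, H.FG ∧ C = isolator H,
    Group.IsSolvable G,
    (commutator G).lowerCentralSeries (2 * r) = ⊥,
    ∀ C : Subgroup G, IsConvex C → C.Normal,
    ∀ x h : G, ¬ InfSmaller x (h⁻¹ * x * h),
    {C : Subgroup G | IsConvex C}.Finite ∧
      {C : Subgroup G | IsConvex C}.ncard ≤ (2 * r + 1) * r + 1,
    WellFoundedGT {C : Subgroup G // IsConvex C},
    WellFoundedLT {C : Subgroup G // IsConvex C},
    ∀ x h : G, Group.IsSolvable (closure ({x, h} : Set G))] := by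
  tfae_have 1 → 5 := no_shift_of_fg
  tfae_have 5 → 4 := normal_of_no_shift
  tfae_have 4 → 3 := nilpotent_commutator hr
  tfae_have 3 → 2 := fun h => ⟨⟨_, isSolvable_of_nilpotent_commutator h⟩⟩
  tfae_have 2 → 1 := by
    intro h
    obtain ⟨n, hn⟩ := (Group.isSolvable_def G).1 h
    exact exists_fg_isolator (HasChain.le_of_derivedSeries n G hr hn)
  tfae_have 3 → 6 := fun h =>
    finite_convex (HasChain.le_of_derivedSeries (2 * r + 1) G hr
      (isSolvable_of_nilpotent_commutator h))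
  tfae_have 6 → 7 := by
    intro h
    have : Finite {C : Subgroup G // IsConvex C} := h.1
    infer_instance
  tfae_have 6 → 8 := by
    intro h
    have : Finite {C : Subgroup G // IsConvex C} := h.1
    infer_instance
  tfae_have 7 → 5 := no_shift_of_gt
  tfae_have 8 → 5 := no_shift_of_lt
  tfae_have 2 → 9 := by
    intro h x g
    infer_instance
  tfae_have 9 → 5 := no_shift_of_two_generated hr
  tfae_finish

end OrdRank
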