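import Pool.Agent.OrdRank.Hoelder

/-!
If all convex subgroups of a bi-ordered group of special rank `≤ r` are normal, the commutator
subgroup is nilpotent of class `≤ 2 r`.
-/

namespace OrdRank

open Subgroup
open scoped commutatorElement

section Groups

variable {G : Type*} [Group G]

/-- Left-normed commutators of weight `n + 1` in the elements of `X`. -/
def sc (X : Set G) : ℕ → Set G
  | 0 => X
  | n + 1 => {c | ∃ s ∈ sc X n, ∃ t ∈ X, c = ⁅s, t⁆}

theorem sc_mono {X Y : Set G} (h : X ⊆ Y) (n : ℕ) : sc X n ⊆ sc Y n := by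
  induction n with
  | zero => exact h
  | succ n ih =>
    rintro c ⟨s, hs, t, ht, rfl⟩
    exact ⟨s, ih hs, t, h ht, rfl⟩

theorem sc_finite {X : Set G} (h : X.Finite) (n : ℕ) : (sc X n).Finite := by
  induction n with
  | zero => exact h
  | succ n ih =>
    refine ((ih.prod h).image fun p : G × G => ⁅p.1, p.2⁆).subset ?_
    rintro c ⟨s, hs, t, ht, rfl⟩
    exact ⟨(s, t), ⟨hs, ht⟩, rfl⟩

theorem sc_exists_finite {X : Set G} (n : ℕ) : ∀ w ∈ sc X n, ∃ Y : Set G, Y ⊆ X ∧ Y.Finite ∧
    w ∈ sc Y n := by
  induction n with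
  | zero => 
    intro w hw
    exact ⟨{w}, Set.singleton_subset_iff.2 hw, Set.finite_singleton w, rfl⟩
  | succ n ih =>
    rintro w ⟨s, hs, t, ht, rfl⟩
    obtain ⟨Y, hYX, hY, hsY⟩ := ih s hs
    refine ⟨insert t Y, Set.insert_subset ht hYX, hY.insert t, s,
      sc_mono (Set.subset_insert t Y) n hsY, t, Set.mem_insert t Y, rfl⟩

theorem sc_subset_lcs (X : Set G) (n : ℕ) : sc X n ⊆ (closure X).lowerCentralSeries n := by
  induction n with
  | zero => exact subset_closure
  | succ n ih =>
    rintro c ⟨s, hs, t, ht, rfl⟩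
    exact commutator_mem_commutator (ih hs) (subset_closure ht)

theorem sc_prefix (X : Set G) (n : ℕ) : ∀ w ∈ sc X n, ∃ u : ℕ → G, u n = w ∧
    (∀ k ≤ n, u k ∈ sc X k) ∧ ∀ k < n, ∃ t ∈ X, u (k + 1) = ⁅u k, t⁆ := by
  induction n with
  | zero => 
    intro w hw
    refine ⟨fun _ => w, rfl, ?_, ?_⟩
    · intro k hk
      rw [Nat.le_zero.1 hk]
      exact hw
    · intro k hk
      exact absurd hk (Nat.not_lt_zero k)
  | succ n ih =>
    rintro w ⟨s, hs, t, ht, rfl⟩
    obtain ⟨u, hun, hu1, hu2⟩ := ih s hs
    refine ⟨fun k => if k ≤ n then u k else ⁅s, t⁆, ?_, ?_, ?_⟩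
    · simp
    · intro k hk
      by_cases hkn : k ≤ n
      · simp only [hkn, if_true]
        exact hu1 k hkn
      · have : k = n + 1 := by omega
        subst this
        simp only [hkn, if_false]
        exact ⟨s, hs, t, ht, rfl⟩
    · intro k hk
      by_cases hkn : k + 1 ≤ n
      · obtain ⟨t', ht', h⟩ := hu2 k (by omega)
        exact ⟨t', ht', by simp only [hkn, (by omega : k ≤ n), if_true]; exact h⟩
      · have : k = n := by omega
        subst this
        exact ⟨t, ht, by simp [hun]⟩

/-- `lowerCentralSeries n` of `closure X` lies in any subgroup normalised by `closure X` which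
contains the left-normed commutators of weight `n + 1` in `X`. -/
theorem lcs_le_of_sc (X : Set G) (n : ℕ) : ∀ N : Subgroup G,
    (∀ f ∈ closure X, ∀ a ∈ N, f * a * f⁻¹ ∈ N) → sc X n ⊆ N →
    (closure X).lowerCentralSeries n ≤ N := by
  induction n with
  | zero =>
    intro N _ h
    exact (closure_le N).2 h
  | succ n ih =>
    intro N hN h
    let Z : Subgroup G :=
      { carrier := {g | g ∈ closure X ∧ ∀ f ∈ closure X, ⁅g, f⁆ ∈ N}
        one_mem' := ⟨one_mem _, fun f _ => by rw [commutatorElement_one_left]; exact N.one_mem⟩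
        mul_mem' := by
          rintro a b ⟨ha, ha'⟩ ⟨hb, hb'⟩
          refine ⟨mul_mem ha hb, fun f hf => ?_⟩
          have e : ⁅a * b, f⁆ = (a * ⁅b, f⁆ * a⁻¹) * ⁅a, f⁆ := by
            simp only [commutatorElement_def]; group
          rw [e]
          exact N.mul_mem (hN a ha _ (hb' f hf)) (ha' f hf)
        inv_mem' := by
          rintro a ⟨ha, ha'⟩
          refine ⟨inv_mem ha, fun f hf => ?_⟩
          have e : ⁅a⁻¹, f⁆ = a⁻¹ * ⁅a, f⁆⁻¹ * a⁻¹⁻¹ := by
            simp only [commutatorElement_def]; group
          rw [e]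
          exact hN _ (inv_mem ha) _ (N.inv_mem (ha' f hf)) }
    have hZ : (closure X).lowerCentralSeries n ≤ Z := by
      apply ih Z
      · rintro f hf a ⟨ha, ha'⟩
        refine ⟨mul_mem (mul_mem hf ha) (inv_mem hf), fun g hg => ?_⟩
        have e : ⁅f * a * f⁻¹, g⁆ = f * ⁅a, f⁻¹ * g * f⁆ * f⁻¹ := by
          simp only [commutatorElement_def]; group
        rw [e]
        exact hN f hf _ (ha' _ (mul_mem (mul_mem (inv_mem hf) hg) hf))
      · intro s hs
        have hsF : s ∈ closure X :=
          (closure X).lowerCentralSeries_le_self n (sc_subset_lcs X n hs)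
        refine ⟨hsF, fun f hf => ?_⟩
        induction hf using closure_induction with
        | mem t ht => exact h ⟨s, hs, t, ht, rfl⟩
        | one => rw [commutatorElement_one_right]; exact N.one_mem
        | mul a b ha hb iha ihb =>
          have e : ⁅s, a * b⁆ = ⁅s, a⁆ * (a * ⁅s, b⁆ * a⁻¹) := by
            simp only [commutatorElement_def]; group
          rw [e]
          exact N.mul_mem iha (hN a ha _ ihb)
        | inv a ha iha =>
          have e : ⁅s, a⁻¹⁆ = a⁻¹ * ⁅s, a⁆⁻¹ * a⁻¹⁻¹ := by
            simp only [commutatorElement_def]; group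
          rw [e]
          exact hN _ (inv_mem ha) _ (N.inv_mem iha)
    rw [Subgroup.lowerCentralSeries_succ, commutator_le]
    intro a ha f hf
    exact (hZ ha).2 f hf

theorem commutator_top_lcs_le (P : Type*) [Group P] (j : ℕ) : ∀ i : ℕ,
    ⁅(⊤ : Subgroup P).lowerCentralSeries i, (⊤ : Subgroup P).lowerCentralSeries j⁆ ≤
      (⊤ : Subgroup P).lowerCentralSeries (i + j + 1) := by
  induction j with
  | zero => intro i; exact le_rfl
  | succ j ih =>
    intro i
    set N := (⊤ : Subgroup P).lowerCentralSeries (i + (j + 1) + 1) with hN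
    have hNn : N.Normal := inferInstance
    set f := QuotientGroup.mk' N
    have hker : ∀ H : Subgroup P, H ≤ N → H.map f = ⊥ := by
      intro H hH
      rw [Subgroup.map_eq_bot_iff, QuotientGroup.ker_mk']
      exact hH
    have h1 : ⁅⁅((⊤ : Subgroup P).lowerCentralSeries j).map f, (⊤ : Subgroup P).map f⁆,
        ((⊤ : Subgroup P).lowerCentralSeries i).map f⁆ = ⊥ := by
      apply commutator_commutator_eq_bot_of_rotate
      · -- ⁅⁅⊤, L i⁆, L j⁆
        rw [commutator_comm ((⊤ : Subgroup P).map f), ← map_commutator, ← map_commutator]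
        apply hker
        have := ih (i + 1)
        rw [Subgroup.lowerCentralSeries_succ] at this
        refine this.trans ?_
        rw [hN]
        apply le_of_eq
        congr 1
        omega
      · -- ⁅⁅L i, L j⁆, ⊤⁆
        rw [← map_commutator, ← map_commutator]
        apply hker
        refine (commutator_mono (ih i) le_rfl).trans ?_
        rw [hN, ← Subgroup.lowerCentralSeries_succ]
        apply le_of_eq
        congr 1
    rw [← map_commutator, ← map_commutator, Subgroup.map_eq_bot_iff, QuotientGroup.ker_mk'] at h1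
    rw [Subgroup.lowerCentralSeries_succ, commutator_comm]
    exact h1

theorem commutator_lcs_le (F : Subgroup G) (i j : ℕ) :
    ⁅F.lowerCentralSeries i, F.lowerCentralSeries j⁆ ≤ F.lowerCentralSeries (i + j + 1) := by
  rw [← top_subtype_lowerCentralSeries F i, ← top_subtype_lowerCentralSeries F j,
    ← top_subtype_lowerCentralSeries F (i + j + 1), ← map_commutator]
  exact map_mono (commutator_top_lcs_le F j i)

end Groups

variable {G : Type*} [Group G] [LinearOrder G] [MulLeftMono G] [MulRightMono G]

theorem dn_normal_of_normal {x : G} (hx : x ≠ 1) (h : ∀ C : Subgroup G, IsConvex C → C.Normal) :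
    (dn x hx).Normal := h _ (dn_convex x hx)

/-- A sequence of nontrivial elements, each infinitely smaller than the previous one, which
commute modulo a convex normal subgroup below all of them, has length at most the special rank. -/
theorem card_le_of_commuting {r : ℕ} (hr : SpecialRankLE G r) (D : Subgroup G) [D.Normal]
    (m : ℕ) (u : ℕ → G) (h1 : ∀ k < m, u k ≠ 1)
    (h2 : ∀ i < m, ∀ j < m, i < j → InfSmaller (u i) (u j))
    (hD : ∀ k (hk : k < m), D ≤ dn (u k) (h1 k hk))
    (hcomm : ∀ i < m, ∀ j < m, ⁅u i, u j⁆ ∈ D) : m ≤ r := by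
  classical
  set f := QuotientGroup.mk' D with hf
  set A : Subgroup (G ⧸ D) := closure (f '' (u '' (Set.Iio m))) with hA
  have huA : ∀ k < m, f (u k) ∈ A := fun k hk =>
    subset_closure ⟨u k, ⟨k, hk, rfl⟩, rfl⟩
  have hcommA : ∀ a b : A, a * b = b * a := by
    have hset : ∀ x ∈ f '' (u '' (Set.Iio m)), ∀ y ∈ f '' (u '' (Set.Iio m)), x * y = y * x := by
      rintro _ ⟨_, ⟨i, hi, rfl⟩, rfl⟩ _ ⟨_, ⟨j, hj, rfl⟩, rfl⟩
      rw [← commutatorElement_eq_one_iff_mul_comm, ← map_commutatorElement]
      exact (QuotientGroup.eq_one_iff _).2 (hcomm i hi j hj)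
    have := isMulCommutative_closure hset
    intro a b
    exact this.is_comm.comm a b
  have hrA : SpecialRankLE A r :=
    (hr.of_surjective f (QuotientGroup.mk'_surjective D)).subgroup A
  refine HasChain.le_of_comm' hcommA hrA ?_
  refine ⟨fun k => if hk : k < m then ((dn (u k) (h1 k hk)).map f).comap A.subtype else ⊤,
    fun k => ((up (u k)).map f).comap A.subtype, Finset.range m, Finset.card_range m, ?_, ?_⟩
  · intro i hi j hj hij
    rw [Finset.mem_range] at hi hj
    simp only [hj, dif_pos]
    exact comap_mono (map_mono (up_le_dn (h2 i hi j hj hij)))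
  · intro k hk
    rw [Finset.mem_range] at hk
    simp only [hk, dif_pos]
    refine ⟨comap_mono (map_mono (dn_le_up _ _)), ?_, ⟨f (u k), huA k hk⟩,
      ⟨u k, self_mem_up _, rfl⟩, ?_⟩
    · intro b _ a ha
      rw [hcommA b a, mul_inv_cancel_right]
      exact ha
    · rintro n hn ⟨w, hw, hwe⟩
      have hwe' : f w = f (u k ^ n) := by rw [map_pow]; exact hwe
      have h3 : w⁻¹ * u k ^ n ∈ D := QuotientGroup.eq.1 hwe'
      have h4 := (dn (u k) (h1 k hk)).mul_mem hw (hD k hk h3)
      rw [mul_inv_cancel_left] at h4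
      exact self_notMem_dn (h1 k hk) ((dn_convex (u k) (h1 k hk)).isolated _ n hn h4)

/-- If all convex subgroups are normal and the special rank is at most `r`, then `G'` is nilpotent
of class at most `2 r`. -/
theorem nilpotent_commutator {r : ℕ} (hr : SpecialRankLE G r)
    (h : ∀ C : Subgroup G, IsConvex C → C.Normal) :
    (commutator G).lowerCentralSeries (2 * r) = ⊥ := by
  classical
  rw [eq_bot_iff]
  have hcl : closure ((commutator G : Subgroup G) : Set G) = commutator G := closure_eq _
  rw [← hcl]
  apply lcs_le_of_sc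
  · intro f _ a ha
    rw [mem_bot] at ha ⊢
    rw [ha]
    group
  intro w₀ hw₀
  obtain ⟨X, hXG, hXfin, hw₀X⟩ := sc_exists_finite _ w₀ hw₀
  by_contra hne
  have hw₀ne : w₀ ≠ 1 := hne
  -- choose `w` of maximal absolute value
  obtain ⟨w, hwX, hwmax⟩ := (sc_finite hXfin (2 * r)).exists_maximalFor (fun s => |s|ₘ) _ ⟨w₀, hw₀X⟩
  have hmax : ∀ s ∈ sc X (2 * r), |s|ₘ ≤ |w|ₘ := by
    intro s hs
    rcases le_total |s|ₘ |w|ₘ with h1 | h1
    · exact h1
    · exact hwmax hs h1
  have hwne : w ≠ 1 := by
    rintro rfl
    have := hmax w₀ hw₀X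
    rw [mabs_one] at this
    exact hw₀ne (mabs_le_one.1 this)
  have hFG : closure X ≤ commutator G := (closure_le _).2 hXG
  have hupn : (up w).Normal := h _ (up_convex w)
  have hγ1 : (closure X).lowerCentralSeries (2 * r) ≤ up w := by
    apply lcs_le_of_sc
    · intro f _ a ha
      exact hupn.conj_mem a ha f
    · intro s hs
      exact ⟨1, by rw [pow_one]; exact hmax s hs⟩
  have hγ2 : (closure X).lowerCentralSeries (2 * r + 1) ≤ dn w hwne := by
    rw [Subgroup.lowerCentralSeries_succ, commutator_le]
    intro a ha f hf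
    have h1 := commutator_mem_dn_of_normal hwne hupn (hFG hf) (hγ1 ha)
    rw [← commutatorElement_inv] 
    exact (dn w hwne).inv_mem h1
  obtain ⟨u, hun, hu1, hu2⟩ := sc_prefix X (2 * r) w hwX
  -- all `u k` are nontrivial
  have hune : ∀ j k : ℕ, k + j = 2 * r → u k ≠ 1 := by
    intro j
    induction j with
    | zero =>
      intro k hk
      rw [Nat.add_zero] at hk
      rw [hk, hun]
      exact hwne
    | succ j ih =>
      intro k hk h1
      obtain ⟨t, -, ht⟩ := hu2 k (by omega)
      rw [h1, commutatorElement_one_left] at ht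
      exact ih (k + 1) (by omega) ht
  have hune' : ∀ k ≤ 2 * r, u k ≠ 1 := fun k hk => hune (2 * r - k) k (by omega)
  have hstep : ∀ k < 2 * r, InfSmaller (u (k + 1)) (u k) := by
    intro k hk
    obtain ⟨t, ht, hut⟩ := hu2 k hk
    have h1 := commutator_mem_dn_of_normal (hune' k hk.le) (h _ (up_convex _)) (hXG ht)
      (self_mem_up (u k))
    have h2 := (dn (u k) (hune' k hk.le)).inv_mem h1
    rw [commutatorElement_inv, ← hut] at h2
    exact h2
  have hlt : ∀ j i : ℕ, i + (j + 1) ≤ 2 * r → InfSmaller (u (i + (j + 1))) (u i) := by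
    intro j
    induction j with
    | zero => intro i hi; exact hstep i (by omega)
    | succ j ih =>
      intro i hi
      have := hstep (i + (j + 1)) (by omega)
      exact this.trans (ih i (by omega))
  have hcard : r + 1 ≤ r := by
    have hDn : (dn w hwne).Normal := h _ (dn_convex _ _)
    refine card_le_of_commuting hr (dn w hwne) (r + 1) (fun j => u (2 * r - j)) ?_ ?_ ?_ ?_
    · intro k hk
      exact hune' _ (by omega)
    · intro i hi j hj hij
      have := hlt (j - i - 1) (2 * r - j) (by omega)
      rw [show 2 * r - j + (j - i - 1 + 1) = 2 * r - i by omega] at this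
      exact this
    · intro k hk
      rcases Nat.eq_zero_or_pos k with rfl | hk0
      · simp only [Nat.sub_zero]
        intro g hg n
        rw [hun]
        exact hg n
      · have h1 := hlt (k - 1) (2 * r - k) (by omega)
        rw [show 2 * r - k + (k - 1 + 1) = 2 * r by omega, hun] at h1
        exact (dn_le_up w hwne).trans (up_le_dn h1)
    · intro i hi j hj
      apply hγ2
      have h1 : u (2 * r - i) ∈ (closure X).lowerCentralSeries (2 * r - i) :=
        sc_subset_lcs X _ (hu1 _ (by omega))
      have h2 : u (2 * r - j) ∈ (closure X).lowerCentralSeries (2 * r - j) :=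
        sc_subset_lcs X _ (hu1 _ (by omega))
      have h3 := commutator_lcs_le (closure X) _ _ (commutator_mem_commutator h1 h2)
      exact (closure X).lowerCentralSeries_antitone (by omega) h3
  omega

end OrdRank
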