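import Pool.Agent.OrdRank.Chain

/-!
Convex subgroups of bi-ordered groups.
-/

namespace OrdRank

open Subgroup
open scoped commutatorElement

/-- A subgroup `C` is convex if `a ≤ g ≤ b` with `a, b ∈ C` implies `g ∈ C`. -/
def IsConvex {G : Type*} [Group G] [LinearOrder G] (C : Subgroup G) : Prop :=
  ∀ a ∈ C, ∀ b ∈ C, ∀ g : G, a ≤ g → g ≤ b → g ∈ C

/-- `I` is isolated if `g ^ n ∈ I` for a positive integer `n` implies `g ∈ I`. -/
def IsIsolated {G : Type*} [Group G] (I : Subgroup G) : Prop :=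
  ∀ (g : G) (n : ℕ), 0 < n → g ^ n ∈ I → g ∈ I

/-- The isolator of `H`: the smallest isolated subgroup containing `H`. -/
def isolator {G : Type*} [Group G] (H : Subgroup G) : Subgroup G :=
  sInf {I : Subgroup G | H ≤ I ∧ IsIsolated I}

theorem le_isolator {G : Type*} [Group G] (H : Subgroup G) : H ≤ isolator H :=
  le_sInf fun _ hI => hI.1

theorem isolator_isolated {G : Type*} [Group G] (H : Subgroup G) : IsIsolated (isolator H) := by
  intro g n hn hg
  rw [isolator, Subgroup.mem_sInf] at hg ⊢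
  intro I hI
  exact hI.2 g n hn (hg I hI)

theorem isolator_le {G : Type*} [Group G] {H I : Subgroup G} (h : H ≤ I) (hI : IsIsolated I) :
    isolator H ≤ I := sInf_le ⟨h, hI⟩

variable {G : Type*} [Group G] [LinearOrder G] [MulLeftMono G] [MulRightMono G]

theorem IsConvex.mabs_mem {C : Subgroup G} {g : G} : |g|ₘ ∈ C ↔ g ∈ C := by
  rcases mabs_choice g with h | h
  · rw [h]
  · rw [h, Subgroup.inv_mem_iff]

theorem IsConvex.mem_of_mabs_le {C : Subgroup G} (hC : IsConvex C) {g x : G} (hx : x ∈ C)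
    (h : |g|ₘ ≤ |x|ₘ) : g ∈ C := by
  have hx' : |x|ₘ ∈ C := IsConvex.mabs_mem.2 hx
  refine hC _ (C.inv_mem hx') _ hx' g ?_ ((le_mabs_self g).trans h)
  exact (inv_le_inv_iff.2 h).trans (inv_mabs_le g)

theorem IsConvex.isolated {C : Subgroup G} (hC : IsConvex C) : IsIsolated C := by
  intro g n hn hg
  rw [← IsConvex.mabs_mem] 
  refine hC 1 C.one_mem (|g|ₘ ^ n) ?_ _ (one_le_mabs g) (le_self_pow (one_le_mabs g) hn.ne')
  rcases mabs_choice g with h | h
  · rw [h]; exact hg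
  · rw [h, inv_pow]; exact C.inv_mem hg

theorem IsConvex.total {C D : Subgroup G} (hC : IsConvex C) (hD : IsConvex D) :
    C ≤ D ∨ D ≤ C := by
  by_contra hcon
  rw [not_or, SetLike.not_le_iff_exists, SetLike.not_le_iff_exists] at hcon
  obtain ⟨⟨c, hcC, hcD⟩, ⟨d, hdD, hdC⟩⟩ := hcon
  rcases le_total |c|ₘ |d|ₘ with h | h
  · exact hcD (hD.mem_of_mabs_le hdD h)
  · exact hdC (hC.mem_of_mabs_le hcC h)

/-- The convex subgroup generated by `x`. -/
def up (x : G) : Subgroup G where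
  carrier := {g | ∃ n : ℕ, |g|ₘ ≤ |x|ₘ ^ n}
  one_mem' := ⟨0, by simp⟩
  mul_mem' := by
    rintro a b ⟨n, hn⟩ ⟨m, hm⟩
    refine ⟨n + m + (m + n), ?_⟩
    have h1 : (1 : G) ≤ |x|ₘ := one_le_mabs x
    rw [mabs_le']
    constructor
    · calc a * b ≤ |x|ₘ ^ n * |x|ₘ ^ m :=
            mul_le_mul' ((le_mabs_self a).trans hn) ((le_mabs_self b).trans hm)
        _ = |x|ₘ ^ (n + m) := (pow_add _ _ _).symm
        _ ≤ _ := pow_le_pow_right' h1 (by omega)
    · rw [mul_inv_rev]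
      calc b⁻¹ * a⁻¹ ≤ |x|ₘ ^ m * |x|ₘ ^ n :=
            mul_le_mul' ((inv_le_mabs b).trans hm) ((inv_le_mabs a).trans hn)
        _ = |x|ₘ ^ (m + n) := (pow_add _ _ _).symm
        _ ≤ _ := pow_le_pow_right' h1 (by omega)
  inv_mem' := by
    rintro a ⟨n, hn⟩
    exact ⟨n, by rw [mabs_inv]; exact hn⟩

theorem mem_up {x g : G} : g ∈ up x ↔ ∃ n : ℕ, |g|ₘ ≤ |x|ₘ ^ n := Iff.rfl

theorem self_mem_up (x : G) : x ∈ up x := ⟨1, by simp⟩

theorem mabs_le_of_between {a b g : G} (h1 : a ≤ g) (h2 : g ≤ b) : |g|ₘ ≤ |a|ₘ ⊔ |b|ₘ := by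
  rw [mabs_le']
  constructor
  · exact (h2.trans (le_mabs_self b)).trans le_sup_right
  · exact ((inv_le_inv_iff.2 h1).trans (inv_le_mabs a)).trans le_sup_left

theorem up_convex (x : G) : IsConvex (up x) := by
  rintro a ⟨n, hn⟩ b ⟨m, hm⟩ g h1 h2
  refine ⟨n + m, (mabs_le_of_between h1 h2).trans (sup_le (hn.trans ?_) (hm.trans ?_))⟩
  · exact pow_le_pow_right' (one_le_mabs x) (by omega)
  · exact pow_le_pow_right' (one_le_mabs x) (by omega)

theorem up_le {x : G} {C : Subgroup G} (hC : IsConvex C) (hx : x ∈ C) : up x ≤ C := by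
  rintro g ⟨n, hn⟩
  have hx' : |x|ₘ ^ n ∈ C := C.pow_mem (IsConvex.mabs_mem.2 hx) n
  refine hC.mem_of_mabs_le hx' (hn.trans ?_)
  exact le_mabs_self _

/-- The largest convex subgroup not containing `x` (for `x ≠ 1`). -/
def dn (x : G) (hx : x ≠ 1) : Subgroup G where
  carrier := {g | ∀ n : ℕ, |g|ₘ ^ n < |x|ₘ}
  one_mem' := by intro n; simpa using hx
  mul_mem' := by
    intro a b ha hb n
    have key : ∀ M : G, (∀ n : ℕ, M ^ n < |x|ₘ) → |a|ₘ ≤ M → |b|ₘ ≤ M → |a * b|ₘ ^ n < |x|ₘ := by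
      intro M hM h1 h2
      have h3 : |a * b|ₘ ≤ M * M := by
        rw [mabs_le']
        constructor
        · exact mul_le_mul' ((le_mabs_self a).trans h1) ((le_mabs_self b).trans h2)
        · rw [mul_inv_rev]
          exact mul_le_mul' ((inv_le_mabs b).trans h2) ((inv_le_mabs a).trans h1)
      refine (pow_le_pow_left' h3 n).trans_lt ?_
      rw [← pow_two, ← pow_mul]
      exact hM _
    rcases le_total |a|ₘ |b|ₘ with h | h
    · exact key _ hb h le_rfl
    · exact key _ ha le_rfl h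
  inv_mem' := by
    intro a ha n
    rw [mabs_inv]
    exact ha n

theorem mem_dn {x : G} {hx : x ≠ 1} {g : G} : g ∈ dn x hx ↔ ∀ n : ℕ, |g|ₘ ^ n < |x|ₘ := Iff.rfl

theorem self_notMem_dn {x : G} (hx : x ≠ 1) : x ∉ dn x hx := by
  intro h
  have := h 1
  rw [pow_one] at this
  exact lt_irrefl _ this

theorem dn_convex (x : G) (hx : x ≠ 1) : IsConvex (dn x hx) := by
  intro a ha b hb g h1 h2 n
  have h3 := mabs_le_of_between h1 h2
  rcases le_total |a|ₘ |b|ₘ with h | h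
  · rw [sup_eq_right.2 h] at h3
    exact (pow_le_pow_left' h3 n).trans_lt (hb n)
  · rw [sup_eq_left.2 h] at h3
    exact (pow_le_pow_left' h3 n).trans_lt (ha n)

theorem le_dn {x : G} {hx : x ≠ 1} {C : Subgroup G} (hC : IsConvex C) (h : x ∉ C) :
    C ≤ dn x hx := by
  intro g hg n
  by_contra hcon
  rw [not_lt] at hcon
  exact h (hC.mem_of_mabs_le (C.pow_mem (IsConvex.mabs_mem.2 hg) n) (hcon.trans (le_mabs_self _)))

theorem dn_le_up (x : G) (hx : x ≠ 1) : dn x hx ≤ up x := by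
  intro g hg
  have := hg 1
  rw [pow_one] at this
  exact ⟨1, by rw [pow_one]; exact this.le⟩

theorem up_le_dn {x y : G} {hy : y ≠ 1} (h : x ∈ dn y hy) : up x ≤ dn y hy :=
  up_le (dn_convex y hy) h

theorem mabs_conj (g x : G) : |g * x * g⁻¹|ₘ = g * |x|ₘ * g⁻¹ := by
  rcases le_total 1 x with h | h
  · have h2 : 1 ≤ g * x * g⁻¹ := by
      calc (1 : G) = g * 1 * g⁻¹ := by group
        _ ≤ g * x * g⁻¹ := mul_le_mul' (mul_le_mul' le_rfl h) le_rfl
    rw [mabs_of_one_le h, mabs_of_one_le h2]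
  · have h2 : g * x * g⁻¹ ≤ 1 := by
      calc g * x * g⁻¹ ≤ g * 1 * g⁻¹ := mul_le_mul' (mul_le_mul' le_rfl h) le_rfl
        _ = 1 := by group
    rw [mabs_of_le_one h, mabs_of_le_one h2]
    group

/-- `x` is infinitely smaller than `y`. -/
def InfSmaller (x y : G) : Prop := ∀ n : ℕ, |x|ₘ ^ n < |y|ₘ

theorem InfSmaller.ne_one {x y : G} (h : InfSmaller x y) : y ≠ 1 := by
  have := h 0
  rw [pow_zero] at this
  exact one_lt_mabs.1 this

theorem InfSmaller.mem_dn {x y : G} (h : InfSmaller x y) : x ∈ dn y h.ne_one := h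

theorem infSmaller_conj {x y : G} (g : G) (h : InfSmaller x y) :
    InfSmaller (g * x * g⁻¹) (g * y * g⁻¹) := by
  intro n
  rw [mabs_conj, mabs_conj, conj_pow]
  exact mul_lt_mul_of_lt_of_le (mul_lt_mul_of_le_of_lt le_rfl (h n)) le_rfl

theorem InfSmaller.trans {x y z : G} (h : InfSmaller x y) (h' : InfSmaller y z) :
    InfSmaller x z := by
  intro n
  have h1 := (h n).le
  have h2 := h' 1
  rw [pow_one] at h2
  exact h1.trans_lt h2

end OrdRank
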