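import Pool.Agent.OrdRank.Main

/-!
Versions relative to a convex normal subgroup, and the splitting of bad pairs of convex subgroups.
-/

namespace OrdRank

open Subgroup
open scoped commutatorElement

variable {G : Type*} [Group G] [LinearOrder G] [MulLeftMono G] [MulRightMono G]

theorem le_up_of_notMem {N : Subgroup G} (hN : IsConvex N) {x : G} (hx : x ∉ N) : N ≤ up x := by
  have hx1 : x ≠ 1 := fun h => hx (h ▸ N.one_mem)
  exact (le_dn (hx := hx1) hN hx).trans (dn_le_up x hx1)

theorem le_dn_of_notMem {N : Subgroup G} (hN : IsConvex N) {x : G} (hx : x ∉ N) (hx1 : x ≠ 1) :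
    N ≤ dn x hx1 := le_dn hN hx

/-- If all convex subgroups containing the convex subgroup `N` are normal and the special rank is
at most `r`, then the commutator subgroup is nilpotent of class at most `2 r` modulo `N`. -/
theorem nilpotent_commutator_rel {r : ℕ} (hr : SpecialRankLE G r) {N : Subgroup G}
    (hN : IsConvex N) (h : ∀ C : Subgroup G, IsConvex C → N ≤ C → C.Normal) :
    (commutator G).lowerCentralSeries (2 * r) ≤ N := by
  classical
  have hNn : N.Normal := h N hN le_rfl
  have hcl : closure ((commutator G : Subgroup G) : Set G) = commutator G := closure_eq _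
  rw [← hcl]
  apply lcs_le_of_sc
  · intro f _ a ha
    exact hNn.conj_mem a ha f
  intro w₀ hw₀
  obtain ⟨X, hXG, hXfin, hw₀X⟩ := sc_exists_finite _ w₀ hw₀
  by_contra hw₀ne
  obtain ⟨w, hwX, hwmax⟩ := (sc_finite hXfin (2 * r)).exists_maximalFor (fun s => |s|ₘ) _ ⟨w₀, hw₀X⟩
  have hmax : ∀ s ∈ sc X (2 * r), |s|ₘ ≤ |w|ₘ := by
    intro s hs
    rcases le_total |s|ₘ |w|ₘ with h1 | h1
    · exact h1
    · exact hwmax hs h1
  have hwN : w ∉ N := fun hw => hw₀ne (hN.mem_of_mabs_le hw (hmax w₀ hw₀X))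
  have hwne : w ≠ 1 := fun h => hwN (h ▸ N.one_mem)
  have hFG : closure X ≤ commutator G := (closure_le _).2 hXG
  have hupn : (up w).Normal := h _ (up_convex w) (le_up_of_notMem hN hwN)
  have hγ1 : (closure X).lowerCentralSeries (2 * r) ≤ up w := by
    apply lcs_le_of_sc
    · intro f _ a ha
      exact hupn.conj_mem a ha f
    · intro s hs
      exact ⟨1, by rw [pow_one]; exact hmax s hs⟩
  have hγ2 : (closure X).lowerCentralSeries (2 * r + 1) ≤ dn w hwne := by
    rw [Subgroup.lowerCentralSeries_succ, commutator_le]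
    intro a ha f hf
    have h1 := commutator_mem_dn_of_normal hwne hupn (hFG hf) (hγ1 ha)
    rw [← commutatorElement_inv]
    exact (dn w hwne).inv_mem h1
  obtain ⟨u, hun, hu1, hu2⟩ := sc_prefix X (2 * r) w hwX
  have hune : ∀ j k : ℕ, k + j = 2 * r → u k ∉ N := by
    intro j
    induction j with
    | zero =>
      intro k hk
      rw [Nat.add_zero] at hk
      rw [hk, hun]
      exact hwN
    | succ j ih =>
      intro k hk h1
      obtain ⟨t, -, ht⟩ := hu2 k (by omega)
      apply ih (k + 1) (by omega)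
      rw [ht, commutatorElement_def, mul_assoc, mul_assoc]
      refine N.mul_mem h1 ?_
      have h2 := hNn.conj_mem _ (N.inv_mem h1) t
      rw [mul_assoc] at h2
      exact h2
  have huN : ∀ k ≤ 2 * r, u k ∉ N := fun k hk => hune (2 * r - k) k (by omega)
  have hune' : ∀ k ≤ 2 * r, u k ≠ 1 := fun k hk h => huN k hk (h ▸ N.one_mem)
  have hstep : ∀ k < 2 * r, InfSmaller (u (k + 1)) (u k) := by
    intro k hk
    obtain ⟨t, ht, hut⟩ := hu2 k hk
    have h1 := commutator_mem_dn_of_normal (hune' k hk.le)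
      (h _ (up_convex _) (le_up_of_notMem hN (huN k hk.le))) (hXG ht) (self_mem_up (u k))
    have h2 := (dn (u k) (hune' k hk.le)).inv_mem h1
    rw [commutatorElement_inv, ← hut] at h2
    exact h2
  have hlt : ∀ j i : ℕ, i + (j + 1) ≤ 2 * r → InfSmaller (u (i + (j + 1))) (u i) := by
    intro j
    induction j with
    | zero => intro i hi; exact hstep i (by omega)
    | succ j ih =>
      intro i hi
      have := hstep (i + (j + 1)) (by omega)
      exact this.trans (ih i (by omega))
  have hcard : r + 1 ≤ r := by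
    have hDn : (dn w hwne).Normal := h _ (dn_convex _ _) (le_dn_of_notMem hN hwN hwne)
    refine card_le_of_commuting hr (dn w hwne) (r + 1) (fun j => u (2 * r - j)) ?_ ?_ ?_ ?_
    · intro k hk
      exact hune' _ (by omega)
    · intro i hi j hj hij
      have := hlt (j - i - 1) (2 * r - j) (by omega)
      rw [show 2 * r - j + (j - i - 1 + 1) = 2 * r - i by omega] at this
      exact this
    · intro k hk
      rcases Nat.eq_zero_or_pos k with rfl | hk0
      · simp only [Nat.sub_zero]
        intro g hg n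
        rw [hun]
        exact hg n
      · have h1 := hlt (k - 1) (2 * r - k) (by omega)
        rw [show 2 * r - k + (k - 1 + 1) = 2 * r by omega, hun] at h1
        exact (dn_le_up w hwne).trans (up_le_dn h1)
    · intro i hi j hj
      apply hγ2
      have h1 : u (2 * r - i) ∈ (closure X).lowerCentralSeries (2 * r - i) :=
        sc_subset_lcs X _ (hu1 _ (by omega))
      have h2 : u (2 * r - j) ∈ (closure X).lowerCentralSeries (2 * r - j) :=
        sc_subset_lcs X _ (hu1 _ (by omega))
      have h3 := commutator_lcs_le (closure X) _ _ (commutator_mem_commutator h1 h2)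
      exact (closure X).lowerCentralSeries_antitone (by omega) h3
  omega

/-- Chains above a convex normal subgroup above which everything convex is normal. -/
theorem chain_le_rel {r : ℕ} (hr : SpecialRankLE G r) {N : Subgroup G}
    (hN : IsConvex N) (h : ∀ C : Subgroup G, IsConvex C → N ≤ C → C.Normal) (m : ℕ) (u : ℕ → G)
    (h1 : ∀ k < m, u k ∉ N) (h2 : ∀ i < m, ∀ j < m, i < j → InfSmaller (u i) (u j)) :
    m ≤ (2 * r + 1) * r := by
  classical
  have hNn : N.Normal := h N hN le_rfl
  have hne : ∀ k < m, u k ≠ 1 := fun k hk he => h1 k hk (he ▸ N.one_mem)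
  have hr' : SpecialRankLE (G ⧸ N) r :=
    hr.of_surjective (QuotientGroup.mk' N) (QuotientGroup.mk'_surjective N)
  have hd : derivedSeries (G ⧸ N) (2 * r + 1) = ⊥ := by
    have h3 : derivedSeries G (2 * r + 1) ≤ N := by
      refine le_trans ?_ (nilpotent_commutator_rel hr hN h)
      rw [← map_derivedSeries_commutator, ← top_subtype_lowerCentralSeries]
      exact map_mono (Subgroup.derived_le_lower_central _)
    rw [← map_derivedSeries_eq (QuotientGroup.mk'_surjective N), Subgroup.map_eq_bot_iff,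
      QuotientGroup.ker_mk']
    exact h3
  refine HasChain.le_of_derivedSeries (2 * r + 1) (G ⧸ N) hr' hd m ?_
  refine ⟨fun k => if hk : k < m then (dn (u k) (hne k hk)).map (QuotientGroup.mk' N) else ⊤,
    fun k => (up (u k)).map (QuotientGroup.mk' N), Finset.range m, Finset.card_range m, ?_, ?_⟩
  · intro i hi j hj hij
    rw [Finset.mem_range] at hi hj
    simp only [hj, dif_pos]
    exact map_mono (up_le_dn (h2 i hi j hj hij))
  · intro k hk
    rw [Finset.mem_range] at hk
    simp only [hk, dif_pos]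
    refine ⟨map_mono (dn_le_up _ _), ?_, QuotientGroup.mk' N (u k),
      ⟨u k, self_mem_up _, rfl⟩, ?_⟩
    · rintro _ ⟨b, hb, rfl⟩ _ ⟨a, ha, rfl⟩
      exact ⟨b * a * b⁻¹, conj_mem_dn _ hb ha, by simp⟩
    · rintro n hn ⟨w, hw, hwe⟩
      have hwe' : QuotientGroup.mk' N w = QuotientGroup.mk' N (u k ^ n) := by
        rw [map_pow]; exact hwe
      have h3 : w⁻¹ * u k ^ n ∈ N := QuotientGroup.eq.1 hwe'
      have h4 := (dn (u k) (hne k hk)).mul_mem hw (le_dn_of_notMem hN (h1 k hk) (hne k hk) h3)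
      rw [mul_inv_cancel_left] at h4
      exact self_notMem_dn (hne k hk) ((dn_convex (u k) (hne k hk)).isolated _ n hn h4)

/-- A sequence with consecutive terms infinitely smaller is increasing. -/
theorem infSmaller_of_succ {u : ℕ → G} (h : ∀ n, InfSmaller (u n) (u (n + 1))) :
    ∀ i j, i < j → InfSmaller (u i) (u j) := by
  intro i j hij
  obtain ⟨k, rfl⟩ := Nat.exists_eq_add_of_lt hij
  clear hij
  induction k with
  | zero => exact h i
  | succ k ih => exact ih.trans (h _)

/-- Below a shift `x ≪ h⁻¹ x h` there is another one, above `x` and inside `up (h ^ -n x h ^ n)`. -/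
theorem exists_smaller_shift {r : ℕ} (hr : SpecialRankLE G r) {x h : G}
    (hxh : InfSmaller x (h⁻¹ * x * h)) :
    ∃ n : ℕ, ∃ x' h' : G, InfSmaller x' (h'⁻¹ * x' * h') ∧ x ∈ up x' ∧
      x' ∈ up ((h ^ n)⁻¹ * x * h ^ n) ∧ h' ∈ up ((h ^ n)⁻¹ * x * h ^ n) := by
  classical
  set n := (2 * r + 1) * r + 1 with hn
  set u : ℕ → G := fun k => (h ^ k)⁻¹ * x * h ^ k with hu
  have hu0 : u 0 = x := by simp [hu]
  have hinc : ∀ i j, i < j → InfSmaller (u i) (u j) := infSmaller_of_succ (infSmaller_seq hxh)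
  have hmono : ∀ i j, i ≤ j → up (u i) ≤ up (u j) := fun i j hij =>
    (strictMono_up hxh).monotone hij
  set T : Subgroup G := closure (u '' Set.Iic n) with hT
  have huT : ∀ k ≤ n, u k ∈ T := fun k hk => Subgroup.subset_closure ⟨k, hk, rfl⟩
  have hTn : T ≤ up (u n) := by
    rw [hT, Subgroup.closure_le]
    rintro _ ⟨k, hk, rfl⟩
    exact hmono k n hk (self_mem_up _)
  have hx : x ∈ T := hu0 ▸ huT 0 (Nat.zero_le _)
  set N : Subgroup T := up (⟨x, hx⟩ : T) with hN
  -- convex subgroups of `T` above `N` cannot all be normal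
  have hnot : ¬ ∀ C : Subgroup T, IsConvex C → N ≤ C → C.Normal := by
    intro hall
    have hcoe : ∀ (a b : T), InfSmaller (a : G) (b : G) → InfSmaller a b := by
      intro a b hab k
      have := hab k
      change ((|a|ₘ ^ k : T) : G) < ((|b|ₘ : T) : G)
      rw [Subgroup.coe_pow, mabs_coe, mabs_coe]
      exact this
    have := chain_le_rel (hr.subgroup T) (up_convex _) hall n
      (fun k => if hk : k + 1 ≤ n then ⟨u (k + 1), huT _ hk⟩ else 1) ?_ ?_
    · omega
    · intro k hk hmem
      simp only [(by omega : k + 1 ≤ n), dif_pos] at hmem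
      have h1 : InfSmaller (⟨x, hx⟩ : T) ⟨u (k + 1), huT _ hk⟩ := by
        apply hcoe
        change InfSmaller x (u (k + 1))
        have := hinc 0 (k + 1) (Nat.succ_pos k)
        rw [hu0] at this
        exact this
      exact self_notMem_dn h1.ne_one (up_le_dn h1.mem_dn hmem)
    · intro i hi j hj hij
      simp only [(by omega : i + 1 ≤ n), (by omega : j + 1 ≤ n), dif_pos]
      exact hcoe _ _ (hinc _ _ (by omega))
  push Not at hnot
  obtain ⟨C, hC, hNC, hCn⟩ := hnot
  have hex : ∃ a ∈ C, ∃ g : T, g * a * g⁻¹ ∉ C := by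
    by_contra hcon
    push Not at hcon
    exact hCn ⟨fun a ha g => hcon a ha g⟩
  obtain ⟨a, haC, g, hg⟩ := hex
  -- choose the larger of `a` and `x`
  have hex2 : ∃ a' ∈ C, g * a' * g⁻¹ ∉ C ∧ (⟨x, hx⟩ : T) ∈ up a' := by
    rcases (up_convex (⟨x, hx⟩ : T)).total (up_convex a) with h1 | h1
    · exact ⟨a, haC, hg, h1 (self_mem_up _)⟩
    · refine ⟨⟨x, hx⟩, hNC (self_mem_up _), ?_, self_mem_up _⟩
      intro hmem
      apply hg
      -- `a ∈ up x`, so `g a g⁻¹ ∈ up (g x g⁻¹) ≤ C`
      have h2 : a ∈ up (⟨x, hx⟩ : T) := h1 (self_mem_up a)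
      obtain ⟨k, hk⟩ := h2
      refine up_le hC hmem ⟨k, ?_⟩
      rw [mabs_conj, mabs_conj, conj_pow]
      exact mul_le_mul' (mul_le_mul' le_rfl hk) le_rfl
  obtain ⟨a', ha'C, hga', hxa'⟩ := hex2
  have hne : g * a' * g⁻¹ ≠ 1 := fun h => hga' (h ▸ C.one_mem)
  have hinf : InfSmaller a' (g * a' * g⁻¹) := le_dn (hx := hne) hC hga' ha'C
  refine ⟨n, a', (g⁻¹ : T), ?_, ?_, hTn a'.2, hTn (g⁻¹ : T).2⟩
  · intro k
    have h1 := hinf k
    have h2 : ((|a'|ₘ ^ k : T) : G) < ((|g * a' * g⁻¹|ₘ : T) : G) := h1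
    rw [Subgroup.coe_pow, mabs_coe, mabs_coe] at h2
    have e : (((g⁻¹ : T) : G))⁻¹ * (a' : G) * ((g⁻¹ : T) : G) = ((g * a' * g⁻¹ : T) : G) := by
      push_cast
      rw [inv_inv]
    rw [e]
    exact h2
  · obtain ⟨k, hk⟩ := hxa'
    refine ⟨k, ?_⟩
    have h2 : ((|(⟨x, hx⟩ : T)|ₘ : T) : G) ≤ ((|a'|ₘ ^ k : T) : G) := hk
    rw [Subgroup.coe_pow, mabs_coe, mabs_coe] at h2
    exact h2

end OrdRank
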